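import Pool.Agent.H779R2.To.GMain
import Pool.Agent.H779R2.Nu.N01
import Pool.Agent.H779R2.Fj.RDef

set_option autoImplicit false

namespace Pool.Agent.H779R2.Fi

open Pool.Agent.H721R2 Pool.Agent.H789R2.AN Pool.Agent.H789R2.GP Pool.Agent.H779R2.An
open Pool.Agent.H779R2.To Pool.Agent.H779R2.Nu
open Filter Topology

variable {X E : Type*} [MetricSpace X] [CompactSpace X] [NormedAddCommGroup E]
  [InnerProductSpace ℝ E] [FiniteDimensional ℝ E]

/-- `h` is the deck transformation given by the deck point `z`. -/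
def IsDk {S : HypSys X E} (F : Flat S) {c : ℝ} (T : QS S.g c) (p : X) (z : Leaf S.g p)
    (h : (S.Vu p × SLf S.g p) ≃ₜ (S.Vu p × SLf S.g p)) : Prop :=
  (∀ y, (((h y).1 : S.Vu p) : E) = F.H z.s p (F.τ p z.s (y.1 : E)) + F.Lc p z.u) ∧
  ∀ y, T.Q z.u y.2.1.val p (h y).2.1.val

end Pool.Agent.H779R2.Fi
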