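import Pool.Agent.H779R2.Fj.RDef
import Pool.Agent.H779R2.Fj.RA

set_option autoImplicit false

namespace Pool.Agent.H779R2.Fi

open Pool.Agent.H779R2.To
open Filter Topology

variable {V Z : Type*} [NormedAddCommGroup V] [NormedSpace ℝ V] [MetricSpace Z]

/-- ZB: the linear parts are isometries of `b`.  If the conformal factor `κ` of `R a` is not `1`,
then `id - R a` is injective (`R a v = v` gives `b v v = κ b v v`), hence surjective, so
`R a v + t a = v` has a solution and `a = 1` by `free`; but `R 1 = id` (`alg`). -/
theorem RDat.iso [Nonempty Z] [FiniteDimensional ℝ V] (D : RDat V Z) (a : D.Λ) (v w : V) :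
    D.b (D.R a v) (D.R a w) = D.b v w := by
  obtain ⟨κ, hκ, hc⟩ := D.conf a
  by_cases h1 : κ = 1
  · rw [hc, h1, one_mul]
  · have hinj : Function.Injective (LinearMap.id - D.R a : V →ₗ[ℝ] V) := by
      rw [injective_iff_map_eq_zero]
      intro m hm
      by_contra hne
      have hm' : D.R a m = m := by
        have h2 : m - D.R a m = 0 := hm
        exact (sub_eq_zero.mp h2).symm
      have h3 := hc m m
      rw [hm'] at h3
      have hp := D.b_pos m hne
      apply h1
      have h4 : (κ - 1) * D.b m m = 0 := by linarith
      rcases mul_eq_zero.mp h4 with h5 | h5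
      · linarith
      · exact absurd h5 hp.ne'
    have hsurj := LinearMap.injective_iff_surjective.mp hinj
    obtain ⟨u, hu⟩ := hsurj (D.t a)
    have hu' : u - D.R a u = D.t a := hu
    have ha : a = 1 := D.free a u (by rw [← hu']; abel)
    have hR := D.alg.2.2.2.1
    rw [ha, hR, hR]

end Pool.Agent.H779R2.Fi
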