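import Pool.Agent.H779R2.Fj.RDef
import Pool.Agent.H779R2.Fj.RA

set_option autoImplicit false

namespace Pool.Agent.H779R2.Fi

open Pool.Agent.H779R2.To
open Filter Topology

variable {V Z : Type*} [NormedAddCommGroup V] [NormedSpace ℝ V] [MetricSpace Z]

/-- ZC: the automorphism of `Λ` given by conjugation with `gt` (from the field `norm`; the
equations for `R`, `t`, `σ` follow by comparing `gt (a y)` and `(φ a) (gt y)`, using `act_eq`, and
that `A`, `G` are surjective; take first coordinate `0` to get `t`). -/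
theorem RDat.exists_phi [Nonempty Z] (D : RDat V Z) : ∃ φ : D.Λ ≃* D.Λ,
    (∀ a : D.Λ, ((φ a : D.Λ) : (V × Z) ≃ₜ (V × Z)) = D.gt * a * D.gt⁻¹) ∧
    (∀ (a : D.Λ) (v : V), D.R (φ a) (D.A v) = D.A (D.R a v)) ∧
    (∀ a : D.Λ, D.t (φ a) = D.A (D.t a)) ∧
    (∀ (a : D.Λ) (s : Z), D.σ (φ a) (D.G s) = D.G (D.σ a s)) := by
  have hn : ∀ a : (V × Z) ≃ₜ (V × Z), a ∈ D.Λ ↔ D.gt * a * D.gt⁻¹ ∈ D.Λ := D.norm
  let φ : D.Λ ≃* D.Λ :=
    { toFun := fun a => ⟨D.gt * a * D.gt⁻¹, (hn a).1 a.2⟩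
      invFun := fun a => ⟨D.gt⁻¹ * a * D.gt, (hn _).2 (by
        have h1 : D.gt * (D.gt⁻¹ * (a : (V × Z) ≃ₜ (V × Z)) * D.gt) * D.gt⁻¹ = a := by group
        rw [h1]
        exact a.2)⟩
      left_inv := fun a => Subtype.ext (by
        show D.gt⁻¹ * (D.gt * (a : (V × Z) ≃ₜ (V × Z)) * D.gt⁻¹) * D.gt = a
        group)
      right_inv := fun a => Subtype.ext (by
        show D.gt * (D.gt⁻¹ * (a : (V × Z) ≃ₜ (V × Z)) * D.gt) * D.gt⁻¹ = a
        group)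
      map_mul' := fun a b => Subtype.ext (by
        show D.gt * ((a : (V × Z) ≃ₜ (V × Z)) * b) * D.gt⁻¹ =
          (D.gt * (a : (V × Z) ≃ₜ (V × Z)) * D.gt⁻¹) * (D.gt * (b : (V × Z) ≃ₜ (V × Z)) * D.gt⁻¹)
        group) }
  have hφ : ∀ a : D.Λ, ((φ a : D.Λ) : (V × Z) ≃ₜ (V × Z)) = D.gt * a * D.gt⁻¹ := fun _ => rfl
  have hcomm : ∀ (a : D.Λ) (y : V × Z), ((φ a : D.Λ) : (V × Z) ≃ₜ (V × Z)) (D.gt y) =
      D.gt ((a : (V × Z) ≃ₜ (V × Z)) y) := by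
    intro a y
    rw [hφ]
    show D.gt ((a : (V × Z) ≃ₜ (V × Z)) (D.gt.symm (D.gt y))) = _
    rw [Homeomorph.symm_apply_apply]
  have hkey : ∀ (a : D.Λ) (v : V) (s : Z),
      D.R (φ a) (D.A v) + D.t (φ a) = D.A (D.R a v + D.t a) ∧
      D.σ (φ a) (D.G s) = D.G (D.σ a s) := by
    intro a v s
    have h1 := hcomm a (v, s)
    rw [D.gt_apply, D.act_eq, D.act_eq, D.gt_apply] at h1
    exact ⟨congrArg Prod.fst h1, congrArg Prod.snd h1⟩
  obtain ⟨s0⟩ := (inferInstance : Nonempty Z)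
  have ht : ∀ a : D.Λ, D.t (φ a) = D.A (D.t a) := by
    intro a
    have h1 := (hkey a 0 s0).1
    rw [map_zero, map_zero, map_zero, zero_add, zero_add] at h1
    exact h1
  refine ⟨φ, hφ, ?_, ht, ?_⟩
  · intro a v
    have h1 := (hkey a v s0).1
    rw [map_add, ht] at h1
    exact add_right_cancel h1
  · intro a s
    exact (hkey a 0 s).2

end Pool.Agent.H779R2.Fi
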