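import Pool.Agent.H779R2.Fj.RDef
import Pool.Agent.H779R2.Fj.RA

set_option autoImplicit false

namespace Pool.Agent.H779R2.Fi

open Pool.Agent.H779R2.To
open Filter Topology

variable {V Z : Type*} [NormedAddCommGroup V] [NormedSpace ℝ V] [MetricSpace Z]

/-- one application of `gt` halves the number of steps -/
theorem RDat.re_half (D : RDat V Z) (u : V) (m : ℕ) (s s' : Z) (h : Chn D.St u m s s') :
    Chn D.St (D.A u) ((m + 1) / 2) (D.G s) (D.G s') := by
  obtain ⟨e, h0, h1, h2⟩ := h
  refine ⟨fun i => D.G (e (min (2 * i) m)), ?_, ?_, ?_⟩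
  · simp [h0]
  · have : min (2 * ((m + 1) / 2)) m = m := min_eq_right (by omega)
    simp only [this, h1]
  · intro i hi
    have h3 : 2 * i < m := by omega
    have h4 : min (2 * i) m = 2 * i := min_eq_left h3.le
    simp only [h4]
    rcases Nat.lt_or_ge (2 * i + 1) m with h5 | h5
    · have h6 : min (2 * (i + 1)) m = 2 * i + 1 + 1 := by omega
      rw [h6]
      exact D.st_two _ _ _ _ (h2 (2 * i) h3) (h2 (2 * i + 1) h5)
    · have h6 : min (2 * (i + 1)) m = 2 * i + 1 := by omega
      rw [h6]
      exact D.st_two _ _ _ _ (h2 (2 * i) h3) (D.st_refl _ _)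

theorem RDat.re_keep (D : RDat V Z) (u : V) (m : ℕ) (s s' : Z) (h : Chn D.St u m s s') :
    Chn D.St (D.A u) m (D.G s) (D.G s') := by
  obtain ⟨e, h0, h1, h2⟩ := h
  exact ⟨fun i => D.G (e i), by simp [h0], by simp [h1],
    fun i hi => D.st_two _ _ _ _ (h2 i hi) (D.st_refl _ _)⟩

theorem RDat.re_iter (D : RDat V Z) (u : V) (m : ℕ) (s s' : Z) (h : Chn D.St u m s s') (j : ℕ)
    (hj : 1 ≤ j) : Chn D.St (D.A^[j] u) ((m + 1) / 2) (D.G^[j] s) (D.G^[j] s') := by
  induction j, hj using Nat.le_induction with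
  | base => exact D.re_half u m s s' h
  | succ j _ ih =>
    rw [Function.iterate_succ_apply', Function.iterate_succ_apply', Function.iterate_succ_apply']
    exact D.re_keep _ _ _ _ ih

theorem RDat.re_act (D : RDat V Z) (a : D.Λ) (u : V) (m : ℕ) (s s' : Z)
    (h : Chn D.St u m s s') : Chn D.St (D.R a u + D.t a) m (D.σ a s) (D.σ a s') := by
  obtain ⟨e, h0, h1, h2⟩ := h
  exact ⟨fun i => D.σ a (e i), by simp [h0], by simp [h1], fun i hi => D.st_act a _ _ _ (h2 i hi)⟩

/-- ZE: an approximate fixed point in the leaf over a fixed point `v` of the affine map.  Let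
`T s := σ a (G^j s)`.  `Chn St v m s s'` implies `Chn St v ((m + 1) / 2) (T s) (T s')`: apply `gt`
once, which halves the number of steps (`st_two` on consecutive pairs, with `st_refl` for the last
one if `m` is odd), then `gt` another `j - 1` times (`st_two` with `st_refl`, the number of steps
does not grow; the base point is `A^i v`) and then `a` (`st_act`, the base point is
`R a (A^j v) + t a = v`).  Start with `s₀` arbitrary and a chain from `s₀` to `T s₀` (`st_chain`
with `B = {v}`, `K = {s₀, T s₀}`); iterate `T` until the chain from `T^k s₀` to `T^(k+1) s₀` has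
length at most one, and take `s = T^k s₀` (length `0`: use `st_refl`). -/
theorem RDat.fix_Z [Nonempty Z] (D : RDat V Z) (a : D.Λ) (j : ℕ) (hj : 1 ≤ j) (v : V)
    (hv : D.R a (D.A^[j] v) + D.t a = v) : ∃ s : Z, D.St v s (D.σ a (D.G^[j] s)) := by
  have key : ∀ m : ℕ, ∀ s : Z, Chn D.St v m s (D.σ a (D.G^[j] s)) →
      ∃ s' : Z, D.St v s' (D.σ a (D.G^[j] s')) := by
    intro m
    induction m using Nat.strong_induction_on with
    | _ m ih =>
      intro s hs
      rcases Nat.lt_or_ge m 2 with h2 | h2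
      · obtain ⟨e, h0, h1, h3⟩ := hs
        interval_cases m
        · refine ⟨s, ?_⟩
          rw [← h1, h0]
          exact D.st_refl _ _
        · refine ⟨s, ?_⟩
          rw [← h1, ← h0]
          exact h3 0 (by norm_num)
      · have h3 := D.re_act a _ _ _ _ (D.re_iter v m _ _ hs j hj)
        rw [hv] at h3
        exact ih _ (by omega) _ h3
  obtain ⟨s₀⟩ := ‹Nonempty Z›
  obtain ⟨m, hm⟩ := D.st_chain {v} {s₀, D.σ a (D.G^[j] s₀)} isCompact_singleton
    ((Set.finite_singleton _).insert _).isCompact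
  exact key m s₀ (hm v (Set.mem_singleton v) s₀ (Set.mem_insert _ _) _
    (Set.mem_insert_of_mem _ (Set.mem_singleton _)))

end Pool.Agent.H779R2.Fi
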