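import Pool.Agent.H779R2.Fj.RDef
import Pool.Agent.H779R2.Fj.RA
import Pool.Agent.H779R2.Fj.RB
import Pool.Agent.H779R2.Fj.RC
import Pool.Agent.H779R2.Fj.RD
import Pool.Agent.H779R2.Fj.RE

set_option autoImplicit false

namespace Pool.Agent.H779R2.Fi

open Pool.Agent.H779R2.To
open Filter Topology

variable {V Z : Type*} [NormedAddCommGroup V] [NormedSpace ℝ V] [MetricSpace Z]

/-- ZF: finitely many twisted conjugacy classes.  Let `K` be from `cocompact`, `K'` from `st_cpt`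
for `K`.  For `a ∈ Λ` take `v` (`fix_V`) and `s` (`fix_Z`), `y = (v, s)`, `y' = a (gt^j y) =
(v, σ a (G^j s))`, so `St v s y'.2`.  Choose `c` with `c y ∈ K`; by `st_act`, `St (c y).1 (c y).2
(c y').2` and `(c y').1 = (c y).1`, so `c y' ∈ K'`.  And `c y' = (c * a * (φ^j c)⁻¹) (gt^j (c y))`.
So `c * a * (φ^j c)⁻¹` is in `{a' | ∃ x ∈ gt^j '' K, a' x ∈ K'}`, which is finite (`proper`). -/
theorem RDat.twisted [Nonempty Z] [FiniteDimensional ℝ V] (D : RDat V Z) (φ : D.Λ ≃* D.Λ)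
    (hφ : ∀ a : D.Λ, ((φ a : D.Λ) : (V × Z) ≃ₜ (V × Z)) = D.gt * a * D.gt⁻¹) (j : ℕ)
    (hj : 1 ≤ j) : ∃ F : Set D.Λ, F.Finite ∧ ∀ a : D.Λ, ∃ c : D.Λ, c * a * (φ^[j] c)⁻¹ ∈ F := by
  classical
  have hit : ∀ (n : ℕ) (u : V) (s : Z), D.gt^[n] (u, s) = (D.A^[n] u, D.G^[n] s) := by
    intro n
    induction n with
    | zero => intro u s; rfl
    | succ n ih =>
      intro u s
      rw [Function.iterate_succ_apply', ih, Function.iterate_succ_apply',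
        Function.iterate_succ_apply']
      rfl
  have hφ1 : ∀ (c : D.Λ) (z : V × Z), ((φ c : D.Λ) : (V × Z) ≃ₜ (V × Z)) (D.gt z) =
      D.gt ((c : (V × Z) ≃ₜ (V × Z)) z) := by
    intro c z
    rw [hφ]
    show D.gt ((c : (V × Z) ≃ₜ (V × Z)) (D.gt.symm (D.gt z))) = _
    rw [Homeomorph.symm_apply_apply]
  have hφn : ∀ (n : ℕ) (c : D.Λ) (z : V × Z),
      ((φ^[n] c : D.Λ) : (V × Z) ≃ₜ (V × Z)) (D.gt^[n] z) =
        D.gt^[n] ((c : (V × Z) ≃ₜ (V × Z)) z) := by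
    intro n
    induction n with
    | zero => intro c z; rfl
    | succ n ih =>
      intro c z
      rw [Function.iterate_succ_apply', Function.iterate_succ_apply',
        Function.iterate_succ_apply', hφ1, ih]
  obtain ⟨K, hK, hcov⟩ := D.cocompact
  obtain ⟨K', hK', hst⟩ := D.st_cpt K hK
  have hgc : Continuous (D.gt^[j]) := D.gt.continuous.iterate j
  refine ⟨{a | ∃ y ∈ D.gt^[j] '' K, (a : (V × Z) ≃ₜ (V × Z)) y ∈ K'},
    D.proper _ _ (hK.image hgc) hK', ?_⟩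
  intro a
  obtain ⟨v, hv⟩ := D.fix_V a j hj
  obtain ⟨s, hs⟩ := D.fix_Z a j hj v hv
  obtain ⟨c, hc⟩ := hcov (v, s)
  refine ⟨c, D.gt^[j] ((c : (V × Z) ≃ₜ (V × Z)) (v, s)), ⟨_, hc, rfl⟩, ?_⟩
  have h1 : ((c * a * (φ^[j] c)⁻¹ : D.Λ) : (V × Z) ≃ₜ (V × Z))
      (D.gt^[j] ((c : (V × Z) ≃ₜ (V × Z)) (v, s))) =
      (c : (V × Z) ≃ₜ (V × Z)) ((a : (V × Z) ≃ₜ (V × Z)) (D.gt^[j] (v, s))) := by
    rw [← hφn j c (v, s)]
    show (c : (V × Z) ≃ₜ (V × Z)) ((a : (V × Z) ≃ₜ (V × Z))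
      (((φ^[j] c : D.Λ) : (V × Z) ≃ₜ (V × Z)).symm
        (((φ^[j] c : D.Λ) : (V × Z) ≃ₜ (V × Z)) (D.gt^[j] (v, s))))) = _
    rw [Homeomorph.symm_apply_apply]
  have h2 : (a : (V × Z) ≃ₜ (V × Z)) (D.gt^[j] (v, s)) = (v, D.σ a (D.G^[j] s)) := by
    rw [hit, D.act_eq a]
    exact Prod.ext hv rfl
  rw [h1, h2, D.act_eq c]
  rw [D.act_eq c] at hc
  exact hst _ _ _ hc (D.st_act c v s _ hs)

end Pool.Agent.H779R2.Fi
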