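import Pool.Agent.H779R2.Fj.RDef
import Pool.Agent.H779R2.Fj.RF

set_option autoImplicit false

namespace Pool.Agent.H779R2.Fi

open Pool.Agent.H779R2.To
open Filter Topology

variable {V Z : Type*} [NormedAddCommGroup V] [NormedSpace ℝ V] [MetricSpace Z]

/-- ZG: finitely many traces, for every `j ≥ 1`.  With `φ` from `exists_phi` and `F` from
`twisted`: `R (c a (φ^j c)⁻¹) A^j = R c (R a A^j) (R c)⁻¹` because `R (φ^j c) A^j = A^j R c`, and
the trace is invariant under conjugation, so the set is contained in the image of `F`. -/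
theorem RDat.trace_fin [Nonempty Z] [FiniteDimensional ℝ V] (D : RDat V Z) (j : ℕ)
    (hj : 1 ≤ j) :
    {x : ℝ | ∃ a : D.Λ, x = LinearMap.trace ℝ V
      (D.R a ∘ₗ ((D.A : V →L[ℝ] V) : V →ₗ[ℝ] V) ^ j)}.Finite := by
  obtain ⟨φ, hφ, hR, -, -⟩ := D.exists_phi
  obtain ⟨F, hF, hc⟩ := D.twisted φ hφ j hj
  obtain ⟨hmul, -, -, hone, -, -, -⟩ := D.alg
  set Al : V →ₗ[ℝ] V := ((D.A : V →L[ℝ] V) : V →ₗ[ℝ] V) with hAl
  have key : ∀ (n : ℕ) (a : D.Λ) (v : V),
      D.R (φ^[n] a) ((Al ^ n) v) = (Al ^ n) (D.R a v) := by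
    intro n
    induction n with
    | zero => intro a v; simp
    | succ n ih =>
      intro a v
      rw [Function.iterate_succ_apply', pow_succ', Module.End.mul_apply, Module.End.mul_apply,
        ← ih a v]
      exact hR _ _
  refine (hF.image (fun a : D.Λ => LinearMap.trace ℝ V (D.R a ∘ₗ Al ^ j))).subset ?_
  rintro x ⟨a, rfl⟩
  obtain ⟨c, hcF⟩ := hc a
  refine ⟨_, hcF, ?_⟩
  have e1 : D.R (c * a * (φ^[j] c)⁻¹) ∘ₗ Al ^ j = (D.R c) * ((D.R a ∘ₗ Al ^ j) * D.R c⁻¹) := by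
    ext v
    simp only [LinearMap.comp_apply, Module.End.mul_apply]
    rw [hmul, hmul, ← iterate_map_inv φ j c, key]
  show LinearMap.trace ℝ V (D.R (c * a * (φ^[j] c)⁻¹) ∘ₗ Al ^ j) = _
  rw [e1, LinearMap.trace_mul_comm, mul_assoc]
  have e2 : D.R c⁻¹ * D.R c = 1 := by
    ext v
    rw [Module.End.mul_apply, ← hmul, inv_mul_cancel, hone]
    rfl
  rw [e2, mul_one]

end Pool.Agent.H779R2.Fi
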