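import Pool.Agent.H779R2.Fj.RDef
import Pool.Agent.H779R2.Fj.RA

set_option autoImplicit false

namespace Pool.Agent.H779R2.Fi

open Pool.Agent.H779R2.To
open Filter Topology

variable {V Z : Type*} [NormedAddCommGroup V] [NormedSpace ℝ V] [MetricSpace Z]

/-- the homeomorphism `σ a` of `Z` -/
noncomputable def ZI_sg [Nonempty Z] (D : RDat V Z) (a : D.Λ) : Z ≃ₜ Z where
  toFun := D.σ a
  invFun := D.σ a⁻¹
  left_inv s := by
    obtain ⟨-, -, h3, -, -, h6, -⟩ := D.alg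
    rw [← h3, inv_mul_cancel, h6]
  right_inv s := by
    obtain ⟨-, -, h3, -, -, h6, -⟩ := D.alg
    rw [← h3, mul_inv_cancel, h6]
  continuous_toFun := by
    have h : D.σ a = fun s => ((a : (V × Z) ≃ₜ (V × Z)) (0, s)).2 := by
      funext s
      rw [D.act_eq]
    rw [h]
    fun_prop
  continuous_invFun := by
    have h : D.σ a⁻¹ = fun s => (((a⁻¹ : D.Λ) : (V × Z) ≃ₜ (V × Z)) (0, s)).2 := by
      funext s
      rw [D.act_eq]
    rw [h]
    fun_prop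

theorem ZI_sg_apply [Nonempty Z] (D : RDat V Z) (a : D.Λ) (s : Z) : ZI_sg D a s = D.σ a s := rfl

/-- ZI: a subgroup `N` of finite index of `Λ` acting by translations on `V` and normalized by `gt`
gives translation data.  `Γ = {t a | a ∈ N}` is an additive subgroup of `V` (`alg`); for `γ ∈ Γ`
the element `a ∈ N` with `t a = γ` is unique (`alg`, last part, as `R a = id`), `σ` of `TDat` is
the homeomorphism `s ↦ σ a s` (inverse from `a⁻¹`; continuous since `a` is), `A`, `G`, `St` as in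
`D`, `φ γ = A γ`; `proper` from `D.proper` (injectivity of `γ ↦ a`); `cocompact`: the union of the
images `c '' K`, `c ∈ s` (`K` from `D.cocompact`): if `a y ∈ K` and `c * a ∈ N` use `c * a`. -/
theorem exists_tdat_sub [Nonempty Z] (D : RDat V Z) (N : Subgroup ((V × Z) ≃ₜ (V × Z)))
    (hN : N ≤ D.Λ) (hR : ∀ a : D.Λ, (a : (V × Z) ≃ₜ (V × Z)) ∈ N → ∀ v, D.R a v = v)
    (hgt : ∀ a, a ∈ N ↔ D.gt * a * D.gt⁻¹ ∈ N)
    (hfi : ∃ s : Set ((V × Z) ≃ₜ (V × Z)), s.Finite ∧ s ⊆ D.Λ ∧ ∀ a ∈ D.Λ, ∃ c ∈ s, c * a ∈ N) :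
    ∃ (Γ : AddSubgroup V) (T : TDat V Z Γ), T.gt = D.gt ∧
      (∀ a : Γ, ∃ c ∈ N, ∀ y, c y = T.act a y) ∧ (∀ c ∈ N, ∃ a : Γ, ∀ y, c y = T.act a y) := by
  classical
  obtain ⟨hRm, htm, hsm, hR1, ht1, hs1, hinj⟩ := D.alg
  have huniq : ∀ a b : D.Λ, (a : (V × Z) ≃ₜ (V × Z)) ∈ N → (b : (V × Z) ≃ₜ (V × Z)) ∈ N →
      D.t a = D.t b → a = b := by
    intro a b ha hb h
    exact hinj a b (fun v => by rw [hR a ha, hR b hb]) h
  have hinvt : ∀ a : D.Λ, (a : (V × Z) ≃ₜ (V × Z)) ∈ N → D.t a⁻¹ = - D.t a := by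
    intro a ha
    have h1 := htm a⁻¹ a
    rw [inv_mul_cancel, ht1, hR a⁻¹ (by simpa using N.inv_mem ha)] at h1
    rw [eq_neg_iff_add_eq_zero, add_comm]
    exact h1.symm
  let Γ : AddSubgroup V :=
    { carrier := {v | ∃ a : D.Λ, (a : (V × Z) ≃ₜ (V × Z)) ∈ N ∧ D.t a = v}
      zero_mem' := ⟨1, by simpa using N.one_mem, ht1⟩
      add_mem' := by
        rintro v w ⟨a, ha, rfl⟩ ⟨b, hb, rfl⟩
        refine ⟨b * a, by simpa using N.mul_mem hb ha, ?_⟩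
        rw [htm, hR b hb]
      neg_mem' := by
        rintro v ⟨a, ha, rfl⟩
        exact ⟨a⁻¹, by simpa using N.inv_mem ha, hinvt a ha⟩ }
  have hmem : ∀ γ : Γ, ∃ a : D.Λ, (a : (V × Z) ≃ₜ (V × Z)) ∈ N ∧ D.t a = (γ : V) := fun γ => γ.2
  choose el hel helt using hmem
  have hel_eq : ∀ (γ : Γ) (a : D.Λ), (a : (V × Z) ≃ₜ (V × Z)) ∈ N → D.t a = (γ : V) →
      el γ = a := by
    intro γ a ha h
    exact huniq _ _ (hel γ) ha (by rw [helt, h])
  -- conjugation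
  have hconj : ∀ a : D.Λ, (a : (V × Z) ≃ₜ (V × Z)) ∈ N → ∃ a' : D.Λ,
      (a' : (V × Z) ≃ₜ (V × Z)) ∈ N ∧ D.t a' = D.A (D.t a) ∧
      ∀ s, D.G (D.σ a s) = D.σ a' (D.G s) := by
    intro a ha
    have h1 : D.gt * (a : (V × Z) ≃ₜ (V × Z)) * D.gt⁻¹ ∈ N := (hgt _).1 ha
    refine ⟨⟨_, hN h1⟩, h1, ?_⟩
    have key : ∀ s : Z, ((D.A (D.t a), D.G (D.σ a s)) : V × Z) =
        (D.t ⟨_, hN h1⟩, D.σ ⟨_, hN h1⟩ (D.G s)) := by
      intro s
      have e1 := D.act_eq ⟨D.gt * (a : (V × Z) ≃ₜ (V × Z)) * D.gt⁻¹, hN h1⟩ (0, D.G s)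
      have e2 : (D.gt * (a : (V × Z) ≃ₜ (V × Z)) * D.gt⁻¹) (0, D.G s) =
          D.gt ((a : (V × Z) ≃ₜ (V × Z)) (D.gt.symm (0, D.G s))) := rfl
      have e3 : D.gt.symm (0, D.G s) = ((0 : V), s) := by
        rw [D.gt_symm_apply]
        simp
      rw [map_zero, zero_add] at e1
      rw [← e1, e2, e3, D.act_eq, D.gt_apply, map_zero, zero_add]
    obtain ⟨z₀⟩ := ‹Nonempty Z›
    exact ⟨(congrArg Prod.fst (key z₀)).symm, fun s => congrArg Prod.snd (key s)⟩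
  have hconj' : ∀ a : D.Λ, (a : (V × Z) ≃ₜ (V × Z)) ∈ N → ∃ a' : D.Λ,
      (a' : (V × Z) ≃ₜ (V × Z)) ∈ N ∧ D.A (D.t a') = D.t a := by
    intro a ha
    have h1 : D.gt⁻¹ * (a : (V × Z) ≃ₜ (V × Z)) * D.gt ∈ N := by
      rw [hgt]
      have : D.gt * (D.gt⁻¹ * (a : (V × Z) ≃ₜ (V × Z)) * D.gt) * D.gt⁻¹ = a := by group
      rw [this]
      exact ha
    refine ⟨⟨_, hN h1⟩, h1, ?_⟩
    obtain ⟨a', ha', ht', -⟩ := hconj ⟨_, hN h1⟩ h1
    rw [← ht']
    obtain ⟨z₀⟩ := ‹Nonempty Z›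
    have e1 := D.act_eq ⟨D.gt⁻¹ * (a : (V × Z) ≃ₜ (V × Z)) * D.gt, hN h1⟩ (0, D.G.symm z₀)
    have e2 : (D.gt⁻¹ * (a : (V × Z) ≃ₜ (V × Z)) * D.gt) (0, D.G.symm z₀) =
        D.gt.symm ((a : (V × Z) ≃ₜ (V × Z)) (D.gt (0, D.G.symm z₀))) := rfl
    rw [map_zero, zero_add] at e1
    change (D.gt⁻¹ * (a : (V × Z) ≃ₜ (V × Z)) * D.gt) (0, D.G.symm z₀) = _ at e1
    rw [e2, D.gt_apply, D.act_eq, D.gt_symm_apply] at e1
    have e3 := congrArg Prod.fst e1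
    simp only [map_zero, zero_add] at e3
    rw [ht', ← e3]
    simp
  have hA : ∀ γ : Γ, D.A (γ : V) ∈ Γ := by
    rintro ⟨v, a, ha, rfl⟩
    obtain ⟨a', h1, h2, -⟩ := hconj a ha
    exact ⟨a', h1, h2⟩
  have hA' : ∀ γ : Γ, D.A.symm (γ : V) ∈ Γ := by
    rintro ⟨v, a, ha, rfl⟩
    obtain ⟨a', h1, h2⟩ := hconj' a ha
    refine ⟨a', h1, ?_⟩
    change D.t a' = D.A.symm (D.t a)
    rw [← h2]
    simp
  let φ : Γ ≃+ Γ :=
    { toFun := fun γ => ⟨D.A (γ : V), hA γ⟩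
      invFun := fun γ => ⟨D.A.symm (γ : V), hA' γ⟩
      left_inv := fun γ => by ext; simp
      right_inv := fun γ => by ext; simp
      map_add' := fun γ δ => by ext; simp }
  let T : TDat V Z Γ :=
    { σ := fun γ => ZI_sg D (el γ)
      t := Γ.subtype
      σ_zero := by
        intro s
        rw [ZI_sg_apply, hel_eq 0 1 (by simpa using N.one_mem) (by simpa using ht1), hs1]
      σ_add := by
        intro γ δ s
        rw [ZI_sg_apply, ZI_sg_apply, ZI_sg_apply, ← hsm]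
        congr 1
        apply hel_eq
        · simpa using N.mul_mem (hel γ) (hel δ)
        · rw [htm, hR _ (hel γ), helt, helt, add_comm]
          rfl
      t_inj := Subtype.val_injective
      A := D.A
      G := D.G
      φ := φ
      A_symm_le := D.A_symm_le
      t_φ := fun γ => rfl
      G_σ := by
        intro γ s
        rw [ZI_sg_apply, ZI_sg_apply]
        obtain ⟨a', h1, h2, h3⟩ := hconj (el γ) (hel γ)
        rw [h3]
        congr 1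
        symm
        apply hel_eq _ _ h1
        rw [h2, helt]
        rfl
      proper := by
        intro K K' hK hK'
        have hfin := D.proper K K' hK hK'
        have hi : Function.Injective el := by
          intro γ δ h
          apply Subtype.ext
          rw [← helt γ, ← helt δ, h]
        refine (hfin.preimage (hi.injOn)).subset ?_
        rintro γ ⟨y, hy, hy'⟩
        refine ⟨y, hy, ?_⟩
        rw [D.act_eq, hR _ (hel γ), helt]
        exact hy'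
      cocompact := by
        obtain ⟨K, hK, hKc⟩ := D.cocompact
        obtain ⟨s, hs, hsΛ, hsc⟩ := hfi
        refine ⟨⋃ c ∈ s, (fun y => c y) '' K, hs.isCompact_biUnion (fun c _ =>
          hK.image c.continuous), ?_⟩
        intro y
        obtain ⟨a, ha⟩ := hKc y
        obtain ⟨c, hc, hca⟩ := hsc a a.2
        have hcaN : ((⟨c * a, hN hca⟩ : D.Λ) : (V × Z) ≃ₜ (V × Z)) ∈ N := hca
        refine ⟨⟨D.t ⟨c * a, hN hca⟩, ⟨_, hcaN, rfl⟩⟩, ?_⟩
        rw [Set.mem_iUnion₂]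
        refine ⟨c, hc, (a : (V × Z) ≃ₜ (V × Z)) y, ha, ?_⟩
        have e1 := D.act_eq ⟨c * a, hN hca⟩ y
        rw [hR _ hcaN] at e1
        have e2 : ZI_sg D (el ⟨D.t ⟨c * a, hN hca⟩, ⟨_, hcaN, rfl⟩⟩) y.2 =
            D.σ ⟨c * a, hN hca⟩ y.2 := by
          rw [ZI_sg_apply, hel_eq _ _ hcaN rfl]
        rw [e2]
        exact e1
      St := D.St
      st_refl := D.st_refl
      st_symm := D.st_symm
      st_act := by
        intro γ u s s' h
        have h1 := D.st_act (el γ) u s s' h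
        rw [hR _ (hel γ), helt] at h1
        exact h1
      st_two := D.st_two
      st_cpt := D.st_cpt
      st_chain := D.st_chain
      st_exp := D.st_exp }
  refine ⟨Γ, T, rfl, ?_, ?_⟩
  · intro γ
    refine ⟨el γ, hel γ, fun y => ?_⟩
    rw [D.act_eq, hR _ (hel γ), helt]
    rfl
  · intro c hc
    have hcN : ((⟨c, hN hc⟩ : D.Λ) : (V × Z) ≃ₜ (V × Z)) ∈ N := hc
    refine ⟨⟨D.t ⟨c, hN hc⟩, ⟨_, hcN, rfl⟩⟩, fun y => ?_⟩
    have e1 := D.act_eq ⟨c, hN hc⟩ y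
    rw [hR _ hcN] at e1
    rw [TDat.act_apply]
    have e2 : T.σ ⟨D.t ⟨c, hN hc⟩, ⟨_, hcN, rfl⟩⟩ y.2 = D.σ ⟨c, hN hc⟩ y.2 := by
      change ZI_sg D (el _) y.2 = _
      rw [ZI_sg_apply, hel_eq _ _ hcN rfl]
    rw [e2]
    exact e1

end Pool.Agent.H779R2.Fi
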