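import Mathlib

set_option autoImplicit false

namespace Pool.Agent.H779R2.Fi

namespace RJ1Aux

theorem fi_iff {G : Type*} [Group G] (Λ N : Subgroup G) :
    (∃ s : Set G, s.Finite ∧ s ⊆ Λ ∧ ∀ a ∈ Λ, ∃ c ∈ s, c * a ∈ N) ↔ N.relIndex Λ ≠ 0 := by
  constructor
  · rintro ⟨s, hs, hsΛ, h⟩
    have : Finite s := hs
    have hfin : Finite (Λ ⧸ N.subgroupOf Λ) := by
      refine Finite.of_surjective
        (fun c : s => ((⟨(c : G)⁻¹, Λ.inv_mem (hsΛ c.2)⟩ : Λ) : Λ ⧸ N.subgroupOf Λ)) ?_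
      intro q
      induction q using QuotientGroup.induction_on with
      | H a =>
        obtain ⟨c, hc, hca⟩ := h a a.2
        refine ⟨⟨c, hc⟩, ?_⟩
        rw [QuotientGroup.eq, Subgroup.mem_subgroupOf]
        simpa using hca
    have : (N.subgroupOf Λ).FiniteIndex := Subgroup.finiteIndex_of_finite_quotient
    exact this.index_ne_zero
  · intro h
    have h1 : (N.subgroupOf Λ).FiniteIndex := ⟨h⟩
    have hfin : Finite (Λ ⧸ N.subgroupOf Λ) := Subgroup.finite_quotient_of_finiteIndex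
    refine ⟨Set.range (fun q : Λ ⧸ N.subgroupOf Λ => ((Quotient.out q : Λ) : G)⁻¹),
      Set.finite_range _, ?_, ?_⟩
    · rintro _ ⟨q, rfl⟩
      exact Λ.inv_mem (Quotient.out q : Λ).2
    · intro a ha
      refine ⟨_, ⟨((⟨a, ha⟩ : Λ) : Λ ⧸ N.subgroupOf Λ), rfl⟩, ?_⟩
      have := QuotientGroup.out_eq' ((⟨a, ha⟩ : Λ) : Λ ⧸ N.subgroupOf Λ)
      rw [QuotientGroup.eq, Subgroup.mem_subgroupOf] at this
      simpa using this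

/-- the conjugate `F^i Tr F^{-i}` -/
def M {G : Type*} [Group G] (Tr : Subgroup G) (F : G) (i : ℕ) : Subgroup G where
  carrier := {a | (F ^ i)⁻¹ * a * F ^ i ∈ Tr}
  one_mem' := by simp
  mul_mem' := by
    intro a b ha hb
    have := Tr.mul_mem ha hb
    simp only [Set.mem_setOf_eq]
    convert this using 1
    group
  inv_mem' := by
    intro a ha
    have := Tr.inv_mem ha
    simp only [Set.mem_setOf_eq]
    convert this using 1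
    group

theorem mem_M {G : Type*} [Group G] (Tr : Subgroup G) (F : G) (i : ℕ) (a : G) :
    a ∈ M Tr F i ↔ (F ^ i)⁻¹ * a * F ^ i ∈ Tr := Iff.rfl

theorem mem_iff_pow {G : Type*} [Group G] (N : Subgroup G) (F : G)
    (hF : ∀ a, a ∈ N ↔ F * a * F⁻¹ ∈ N) (i : ℕ) (a : G) :
    a ∈ N ↔ F ^ i * a * (F ^ i)⁻¹ ∈ N := by
  induction i with
  | zero => simp
  | succ i ih =>
    rw [ih, hF]
    have : F * (F ^ i * a * (F ^ i)⁻¹) * F⁻¹ = F ^ (i + 1) * a * (F ^ (i + 1))⁻¹ := by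
      rw [pow_succ']; group
    rw [this]

theorem mem_iff_pow' {G : Type*} [Group G] (N : Subgroup G) (F : G)
    (hF : ∀ a, a ∈ N ↔ F * a * F⁻¹ ∈ N) (i : ℕ) (a : G) :
    a ∈ N ↔ (F ^ i)⁻¹ * a * F ^ i ∈ N := by
  rw [mem_iff_pow N F hF i ((F ^ i)⁻¹ * a * F ^ i)]
  have : F ^ i * ((F ^ i)⁻¹ * a * F ^ i) * (F ^ i)⁻¹ = a := by group
  rw [this]

theorem M_fi {G : Type*} [Group G] (Λ Tr : Subgroup G)
    (hfi : ∃ s : Set G, s.Finite ∧ s ⊆ Λ ∧ ∀ a ∈ Λ, ∃ c ∈ s, c * a ∈ Tr)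
    (F : G) (hF : ∀ a, a ∈ Λ ↔ F * a * F⁻¹ ∈ Λ) (i : ℕ) :
    ∃ s : Set G, s.Finite ∧ s ⊆ Λ ∧ ∀ a ∈ Λ, ∃ c ∈ s, c * a ∈ M Tr F i := by
  obtain ⟨s, hs, hsΛ, h⟩ := hfi
  refine ⟨(fun c => F ^ i * c * (F ^ i)⁻¹) '' s, hs.image _, ?_, ?_⟩
  · rintro _ ⟨c, hc, rfl⟩
    exact (mem_iff_pow Λ F hF i c).1 (hsΛ hc)
  · intro a ha
    obtain ⟨c, hc, hca⟩ := h _ ((mem_iff_pow' Λ F hF i a).1 ha)
    refine ⟨_, ⟨c, hc, rfl⟩, ?_⟩
    rw [mem_M]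
    convert hca using 1
    group

end RJ1Aux

open RJ1Aux in
/-- ZJ1 (pure group theory): put `N = ⋂_{i < n} F^i Tr F^{-i}`.  As `F^n = δ g` normalizes `Tr`
(`hnorm`, `hg`), `N` is normalized by `F`; every `F^i Tr F^{-i}` is normal in `F^i Λ F^{-i} = Λ`, so
`N` is normal in `Λ` and normalized by `g = δ⁻¹ F^n`; a finite intersection of subgroups of finite
index has finite index (for `Tr` itself this is `hfi`; transport by `F^i`; `Subgroup.relIndex` or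
`Subgroup.FiniteIndex` in `Λ` can help).  For `k`: `δ_k = F^(n k) g^(-k) ∈ Λ`; by pigeonhole there
are `k < l` with `δ_k⁻¹ δ_l ∈ N`, and `δ_k⁻¹ δ_l = g^k δ_(l-k) g^(-k)`, so `δ_(l-k) ∈ N`. -/
theorem exists_N_group' {G : Type*} [Group G] (Λ Tr : Subgroup G) (hTr : Tr ≤ Λ)
    (hnorm : ∀ a ∈ Λ, ∀ t ∈ Tr, a * t * a⁻¹ ∈ Tr)
    (hfi : ∃ s : Set G, s.Finite ∧ s ⊆ Λ ∧ ∀ a ∈ Λ, ∃ c ∈ s, c * a ∈ Tr)
    (g : G) (hgΛ : ∀ a, a ∈ Λ ↔ g * a * g⁻¹ ∈ Λ) (hg : ∀ a, a ∈ Tr ↔ g * a * g⁻¹ ∈ Tr)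
    (F : G) (hF : ∀ a, a ∈ Λ ↔ F * a * F⁻¹ ∈ Λ) (n : ℕ) (hn : 1 ≤ n) (δ : G) (hδ : δ ∈ Λ)
    (hFn : F ^ n = δ * g) :
    ∃ N : Subgroup G, N ≤ Tr ∧ (∀ b ∈ Λ, ∀ a, a ∈ N ↔ b * a * b⁻¹ ∈ N) ∧
      (∀ a, a ∈ N ↔ F * a * F⁻¹ ∈ N) ∧
      (∀ a, a ∈ N ↔ g * a * g⁻¹ ∈ N) ∧
      (∃ s : Set G, s.Finite ∧ s ⊆ Λ ∧ ∀ a ∈ Λ, ∃ c ∈ s, c * a ∈ N) ∧
      ∃ k : ℕ, 1 ≤ k ∧ ∃ δ' ∈ N, F ^ (n * k) = δ' * g ^ k := by
  classical
  -- conjugation by elements of `Λ`, as an iff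
  have hnorm' : ∀ b ∈ Λ, ∀ t, t ∈ Tr ↔ b * t * b⁻¹ ∈ Tr := by
    intro b hb t
    refine ⟨hnorm b hb t, fun h => ?_⟩
    have := hnorm b⁻¹ (Λ.inv_mem hb) _ h
    convert this using 1
    group
  set N : Subgroup G := ⨅ i : Fin n, M Tr F (i : ℕ) with hN
  have memN : ∀ a, a ∈ N ↔ ∀ i, i < n → (F ^ i)⁻¹ * a * F ^ i ∈ Tr := by
    intro a
    rw [hN, Subgroup.mem_iInf]
    constructor
    · intro h i hi
      exact h ⟨i, hi⟩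
    · intro h i
      exact h i i.2
  -- `M_n = Tr`
  have hMn : ∀ a, (F ^ n)⁻¹ * a * F ^ n ∈ Tr ↔ a ∈ Tr := by
    intro a
    rw [hg ((F ^ n)⁻¹ * a * F ^ n), hnorm' δ hδ]
    have : δ * (g * ((F ^ n)⁻¹ * a * F ^ n) * g⁻¹) * δ⁻¹ = a := by
      rw [hFn]; group
    rw [this]
  have hNTr : N ≤ Tr := by
    intro a ha
    have := (memN a).1 ha 0 hn
    simpa using this
  have hFN : ∀ a, a ∈ N ↔ F * a * F⁻¹ ∈ N := by
    intro a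
    obtain ⟨m, rfl⟩ : ∃ m, n = m + 1 := ⟨n - 1, by omega⟩
    rw [memN, memN]
    constructor
    · intro h i hi
      rcases Nat.eq_zero_or_pos i with rfl | hi0
      · have h1 := h m (by omega)
        have h2 := (hMn (F * a * F⁻¹)).1 (by
          convert h1 using 1
          rw [pow_succ']; group)
        simpa using h2
      · obtain ⟨j, rfl⟩ : ∃ j, i = j + 1 := ⟨i - 1, by omega⟩
        have h1 := h j (by omega)
        convert h1 using 1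
        rw [pow_succ']; group
    · intro h i hi
      rcases Nat.lt_or_ge (i + 1) (m + 1) with hi1 | hi1
      · have h1 := h (i + 1) hi1
        convert h1 using 1
        rw [pow_succ']; group
      · have him : i = m := by omega
        subst him
        have h1 := h 0 (by omega)
        have h2 := (hMn (F * a * F⁻¹)).2 (by simpa using h1)
        convert h2 using 1
        rw [pow_succ']; group
  have hΛN : ∀ b ∈ Λ, ∀ a, a ∈ N ↔ b * a * b⁻¹ ∈ N := by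
    intro b hb a
    rw [memN, memN]
    have key : ∀ i, ((F ^ i)⁻¹ * a * F ^ i ∈ Tr ↔ (F ^ i)⁻¹ * (b * a * b⁻¹) * F ^ i ∈ Tr) := by
      intro i
      rw [hnorm' _ ((mem_iff_pow' Λ F hF i b).1 hb) ((F ^ i)⁻¹ * a * F ^ i)]
      have : (F ^ i)⁻¹ * b * F ^ i * ((F ^ i)⁻¹ * a * F ^ i) * ((F ^ i)⁻¹ * b * F ^ i)⁻¹
          = (F ^ i)⁻¹ * (b * a * b⁻¹) * F ^ i := by group
      rw [this]
    exact ⟨fun h i hi => (key i).1 (h i hi), fun h i hi => (key i).2 (h i hi)⟩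
  have hgN : ∀ a, a ∈ N ↔ g * a * g⁻¹ ∈ N := by
    intro a
    rw [mem_iff_pow N F hFN n a, hΛN δ hδ (g * a * g⁻¹)]
    have : F ^ n * a * (F ^ n)⁻¹ = δ * (g * a * g⁻¹) * δ⁻¹ := by
      rw [hFn]; group
    rw [this]
  have hfiN : ∃ s : Set G, s.Finite ∧ s ⊆ Λ ∧ ∀ a ∈ Λ, ∃ c ∈ s, c * a ∈ N := by
    rw [fi_iff, hN]
    apply Subgroup.relIndex_iInf_ne_zero
    intro i
    exact (fi_iff Λ _).1 (M_fi Λ Tr hfi F hF i)
  refine ⟨N, hNTr, hΛN, hFN, hgN, hfiN, ?_⟩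
  obtain ⟨s, hs, hsΛ, h⟩ := hfiN
  have hδk : ∀ k : ℕ, F ^ (n * k) * (g ^ k)⁻¹ ∈ Λ := by
    intro k
    induction k with
    | zero => simp
    | succ k ih =>
      have h1 := Λ.mul_mem hδ ((hgΛ _).1 ih)
      convert h1 using 1
      have : F ^ (n * (k + 1)) = F ^ n * F ^ (n * k) := by
        rw [← pow_add]; congr 1; ring
      rw [this, hFn, pow_succ']
      group
  choose! c hcs hc using fun k => h _ (hδk k)
  have hinf : Set.Infinite (Set.univ : Set ℕ) := Set.infinite_univ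
  obtain ⟨k, -, l, -, hkl, hckl⟩ := Set.Infinite.exists_lt_map_eq_of_mapsTo
    hinf (f := c) (t := s) (fun k _ => hcs k) hs
  refine ⟨l - k, by omega, F ^ (n * (l - k)) * (g ^ (l - k))⁻¹, ?_, by group⟩
  rw [mem_iff_pow N g hgN k]
  have h1 := N.mul_mem (N.inv_mem (hc k)) (hckl ▸ hc l)
  convert h1 using 1
  obtain ⟨m, rfl⟩ : ∃ m, l = k + m := ⟨l - k, by omega⟩
  have e1 : k + m - k = m := by omega
  rw [e1]
  have e2 : F ^ (n * (k + m)) = F ^ (n * k) * F ^ (n * m) := by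
    rw [← pow_add]; congr 1; ring
  have e3 : g ^ (k + m) = g ^ m * g ^ k := by
    rw [← pow_add]; congr 1; ring
  rw [e2, e3]
  group

theorem exists_N_group {G : Type*} [Group G] (Λ Tr : Subgroup G) (hTr : Tr ≤ Λ)
    (hnorm : ∀ a ∈ Λ, ∀ t ∈ Tr, a * t * a⁻¹ ∈ Tr)
    (hfi : ∃ s : Set G, s.Finite ∧ s ⊆ Λ ∧ ∀ a ∈ Λ, ∃ c ∈ s, c * a ∈ Tr)
    (g : G) (hgΛ : ∀ a, a ∈ Λ ↔ g * a * g⁻¹ ∈ Λ) (hg : ∀ a, a ∈ Tr ↔ g * a * g⁻¹ ∈ Tr)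
    (F : G) (hF : ∀ a, a ∈ Λ ↔ F * a * F⁻¹ ∈ Λ) (n : ℕ) (hn : 1 ≤ n) (δ : G) (hδ : δ ∈ Λ)
    (hFn : F ^ n = δ * g) :
    ∃ N : Subgroup G, N ≤ Tr ∧ (∀ a, a ∈ N ↔ F * a * F⁻¹ ∈ N) ∧
      (∀ a, a ∈ N ↔ g * a * g⁻¹ ∈ N) ∧
      (∃ s : Set G, s.Finite ∧ s ⊆ Λ ∧ ∀ a ∈ Λ, ∃ c ∈ s, c * a ∈ N) ∧
      ∃ k : ℕ, 1 ≤ k ∧ ∃ δ' ∈ N, F ^ (n * k) = δ' * g ^ k := by
  obtain ⟨N, h1, -, h2⟩ := exists_N_group' Λ Tr hTr hnorm hfi g hgΛ hg F hF n hn δ hδ hFn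
  exact ⟨N, h1, h2⟩

end Pool.Agent.H779R2.Fi
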