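import Pool.Agent.H779R2.Fj.RDef
import Pool.Agent.H779R2.Fj.RA
import Pool.Agent.H779R2.Fj.RC
import Pool.Agent.H779R2.Fj.RJ1

set_option autoImplicit false

namespace Pool.Agent.H779R2.Fi

open Pool.Agent.H779R2.To
open Filter Topology

variable {V Z : Type*} [NormedAddCommGroup V] [NormedSpace ℝ V] [MetricSpace Z]

/-- `exists_N` with normality. -/
theorem RDat.exists_N' [Nonempty Z] (D : RDat V Z) (hfin : (Set.range D.R).Finite)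
    (F : (V × Z) ≃ₜ (V × Z)) (hF : ∀ a, a ∈ D.Λ ↔ F * a * F⁻¹ ∈ D.Λ) (n : ℕ) (hn : 1 ≤ n)
    (δ : (V × Z) ≃ₜ (V × Z)) (hδ : δ ∈ D.Λ) (hFn : F ^ n = δ * D.gt) :
    ∃ N : Subgroup ((V × Z) ≃ₜ (V × Z)), N ≤ D.Λ ∧
      (∀ a : D.Λ, (a : (V × Z) ≃ₜ (V × Z)) ∈ N → ∀ v, D.R a v = v) ∧
      (∀ b ∈ D.Λ, ∀ a, a ∈ N ↔ b * a * b⁻¹ ∈ N) ∧
      (∀ a, a ∈ N ↔ F * a * F⁻¹ ∈ N) ∧ (∀ a, a ∈ N ↔ D.gt * a * D.gt⁻¹ ∈ N) ∧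
      (∃ s : Set ((V × Z) ≃ₜ (V × Z)), s.Finite ∧ s ⊆ D.Λ ∧ ∀ a ∈ D.Λ, ∃ c ∈ s, c * a ∈ N) ∧
      ∃ k : ℕ, 1 ≤ k ∧ ∃ δ' ∈ N, F ^ (n * k) = δ' * D.gt ^ k := by
  classical
  obtain ⟨e1, e2, e3, e4, e5, e6, e7⟩ := D.alg
  obtain ⟨φ, hφ, hφR, hφt, hφσ⟩ := D.exists_phi
  let Tr : Subgroup ((V × Z) ≃ₜ (V × Z)) :=
    { carrier := {a | ∃ ha : a ∈ D.Λ, ∀ v, D.R ⟨a, ha⟩ v = v}
      one_mem' := ⟨D.Λ.one_mem, fun v => e4 v⟩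
      mul_mem' := by
        rintro a b ⟨ha, ha'⟩ ⟨hb, hb'⟩
        refine ⟨D.Λ.mul_mem ha hb, fun v => ?_⟩
        have := e1 ⟨a, ha⟩ ⟨b, hb⟩ v
        rw [hb', ha'] at this
        exact this
      inv_mem' := by
        rintro a ⟨ha, ha'⟩
        refine ⟨D.Λ.inv_mem ha, fun v => ?_⟩
        have := e1 (⟨a, ha⟩ : D.Λ)⁻¹ ⟨a, ha⟩ v
        rw [inv_mul_cancel, e4, ha'] at this
        exact this.symm }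
  have hTr : ∀ a, a ∈ Tr ↔ ∃ ha : a ∈ D.Λ, ∀ v, D.R ⟨a, ha⟩ v = v := fun a => Iff.rfl
  have hinv : ∀ (a : D.Λ) (v : V), D.R a (D.R a⁻¹ v) = v := by
    intro a v
    rw [← e1, mul_inv_cancel, e4]
  have hnorm : ∀ a ∈ D.Λ, ∀ t ∈ Tr, a * t * a⁻¹ ∈ Tr := by
    rintro a ha t ⟨ht, ht'⟩
    refine ⟨D.Λ.mul_mem (D.Λ.mul_mem ha ht) (D.Λ.inv_mem ha), fun v => ?_⟩
    have h1 : D.R ((⟨a, ha⟩ * ⟨t, ht⟩) * (⟨a, ha⟩ : D.Λ)⁻¹) v = v := by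
      rw [e1, e1, ht', hinv]
    exact h1
  have hgΛ : ∀ a, a ∈ D.Λ ↔ D.gt * a * D.gt⁻¹ ∈ D.Λ := fun a => D.norm a
  have hgTr : ∀ a, a ∈ Tr ↔ D.gt * a * D.gt⁻¹ ∈ Tr := by
    intro a
    constructor
    · rintro ⟨ha, ha'⟩
      refine ⟨(hgΛ a).1 ha, fun v => ?_⟩
      have h1 : (⟨D.gt * a * D.gt⁻¹, (hgΛ a).1 ha⟩ : D.Λ) = φ ⟨a, ha⟩ :=
        Subtype.ext (hφ ⟨a, ha⟩).symm
      have h2 := hφR ⟨a, ha⟩ (D.A.symm v)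
      rw [D.A.apply_symm_apply, ha', D.A.apply_symm_apply, ← h1] at h2
      exact h2
    · rintro ⟨ha, ha'⟩
      refine ⟨(hgΛ a).2 ha, fun v => ?_⟩
      have h1 : (⟨D.gt * a * D.gt⁻¹, ha⟩ : D.Λ) = φ ⟨a, (hgΛ a).2 ha⟩ :=
        Subtype.ext (hφ ⟨a, (hgΛ a).2 ha⟩).symm
      have h2 := hφR ⟨a, (hgΛ a).2 ha⟩ v
      rw [← h1, ha'] at h2
      exact D.A.injective h2.symm
  have hfi : ∃ s : Set ((V × Z) ≃ₜ (V × Z)), s.Finite ∧ s ⊆ D.Λ ∧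
      ∀ a ∈ D.Λ, ∃ c ∈ s, c * a ∈ Tr := by
    have hc : ∀ r : Set.range D.R, ∃ a : D.Λ, D.R a = r := fun r => r.2
    choose c hc using hc
    have : Finite (Set.range D.R) := hfin
    refine ⟨Set.range (fun r : Set.range D.R => ((c r)⁻¹ : (V × Z) ≃ₜ (V × Z))),
      Set.finite_range _, ?_, ?_⟩
    · rintro _ ⟨r, rfl⟩
      exact D.Λ.inv_mem (c r).2
    · intro a ha
      refine ⟨_, ⟨⟨D.R ⟨a, ha⟩, ⟨_, rfl⟩⟩, rfl⟩, ?_⟩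
      set r : Set.range D.R := ⟨D.R ⟨a, ha⟩, ⟨_, rfl⟩⟩ with hr
      refine ⟨D.Λ.mul_mem (D.Λ.inv_mem (c r).2) ha, fun v => ?_⟩
      have h1 := e1 (c r)⁻¹ ⟨a, ha⟩ v
      have h2 : D.R (c r) = D.R ⟨a, ha⟩ := hc r
      rw [← h2, ← e1, inv_mul_cancel, e4] at h1
      exact h1
  obtain ⟨N, h1, h2, h3, h4, h5, h6⟩ := exists_N_group' D.Λ Tr (fun a ha => ha.1) hnorm hfi D.gt
    hgΛ hgTr F hF n hn δ hδ hFn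
  refine ⟨N, fun a ha => (h1 ha).1, ?_, h2, h3, h4, h5, h6⟩
  intro a ha v
  obtain ⟨hb, hb'⟩ := h1 ha
  exact hb' v

end Pool.Agent.H779R2.Fi
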