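import Pool.Agent.H779R2.Fj.RDef

set_option autoImplicit false

namespace Pool.Agent.H779R2.Fi

open Pool.Agent.H779R2.To
open Filter Topology

variable {V Z : Type*} [NormedAddCommGroup V] [NormedSpace ℝ V] [MetricSpace Z]

namespace RK

lemma A_pow (A : V ≃L[ℝ] V) (k : ℕ) (v : V) : (A ^ k) v = A^[k] v := by
  induction k generalizing v with
  | zero => rfl
  | succ n ih =>
    rw [pow_succ, Function.iterate_succ_apply, ← ih]
    rfl

lemma A_pow_symm (A : V ≃L[ℝ] V) (k : ℕ) (v : V) : (A ^ k).symm v = A.symm^[k] v := by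
  induction k generalizing v with
  | zero => rfl
  | succ n ih =>
    rw [pow_succ', Function.iterate_succ_apply, ← ih]
    rfl

lemma G_pow (G : Z ≃ₜ Z) (k : ℕ) (v : Z) : (G ^ k) v = G^[k] v := by
  induction k generalizing v with
  | zero => rfl
  | succ n ih =>
    rw [pow_succ, Function.iterate_succ_apply, ← ih]
    rfl

lemma G_pow_symm (G : Z ≃ₜ Z) (k : ℕ) (v : Z) : (G ^ k).symm v = G.symm^[k] v := by
  induction k generalizing v with
  | zero => rfl
  | succ n ih =>
    rw [pow_succ', Function.iterate_succ_apply, ← ih]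
    rfl

lemma gt_pow (A : V ≃L[ℝ] V) (G : Z ≃ₜ Z) (k : ℕ) :
    (A ^ k).toHomeomorph.prodCongr (G ^ k) = (A.toHomeomorph.prodCongr G) ^ k := by
  induction k with
  | zero => rfl
  | succ n ih =>
    rw [pow_succ (A.toHomeomorph.prodCongr G), ← ih, pow_succ A, pow_succ G]
    rfl

lemma step (D : RDat V Z) (n : ℕ) (u : V) (s s' : Z) (h : D.St u s s') :
    D.St (D.A^[n] u) (D.G^[n] s) (D.G^[n] s') := by
  induction n with
  | zero => exact h
  | succ n ih =>
    rw [Function.iterate_succ_apply', Function.iterate_succ_apply', Function.iterate_succ_apply']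
    exact D.st_two _ _ _ _ ih (D.st_refl _ _)

lemma symm_le (D : RDat V Z) (k : ℕ) (v : V) : ‖D.A.symm^[k] v‖ ≤ (1 / 2) ^ k * ‖v‖ := by
  induction k with
  | zero => simp
  | succ n ih =>
    rw [Function.iterate_succ_apply']
    calc ‖D.A.symm (D.A.symm^[n] v)‖ ≤ 1 / 2 * ‖D.A.symm^[n] v‖ := D.A_symm_le _
      _ ≤ 1 / 2 * ((1 / 2) ^ n * ‖v‖) := mul_le_mul_of_nonneg_left ih (by norm_num)
      _ = (1 / 2) ^ (n + 1) * ‖v‖ := by ring

lemma conf_pow (D : RDat V Z) (k : ℕ) :
    ∃ κ : ℝ, 0 < κ ∧ ∀ v w, D.b (D.A^[k] v) (D.A^[k] w) = κ * D.b v w := by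
  obtain ⟨κ, hκ, h⟩ := D.A_conf
  refine ⟨κ ^ k, pow_pos hκ k, ?_⟩
  induction k with
  | zero => intro v w; simp
  | succ n ih =>
    intro v w
    rw [Function.iterate_succ_apply', Function.iterate_succ_apply', h, ih, pow_succ]
    ring

lemma norm_pow' (D : RDat V Z) (k : ℕ) (a : (V × Z) ≃ₜ (V × Z)) :
    a ∈ D.Λ ↔ (D.A.toHomeomorph.prodCongr D.G) ^ k * a *
      ((D.A.toHomeomorph.prodCongr D.G) ^ k)⁻¹ ∈ D.Λ := by
  induction k generalizing a with
  | zero => simp
  | succ n ih =>
    rw [ih a, D.norm, pow_succ']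
    simp only [mul_inv_rev, mul_assoc]

lemma st_exp' (D : RDat V Z) (k : ℕ) (hk : 1 ≤ k) (u : V) (s s' : Z)
    (h : ∀ n : ℕ, D.St ((D.A.symm^[k])^[n] u) ((D.G.symm^[k])^[n] s) ((D.G.symm^[k])^[n] s')) :
    s = s' := by
  apply D.st_exp u
  intro n
  have h1 := h n
  rw [← Function.iterate_mul, ← Function.iterate_mul] at h1
  obtain ⟨j, hj⟩ : ∃ j, k * n = j + n := ⟨k * n - n, by
    have : n ≤ k * n := Nat.le_mul_of_pos_left n hk
    omega⟩
  have h2 := step D j _ _ _ h1
  rw [hj, Function.iterate_add_apply, Function.iterate_add_apply,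
    Function.iterate_add_apply] at h2
  have eA : ∀ v, D.A^[j] (D.A.symm^[j] v) = v := by
    intro v
    exact Function.LeftInverse.iterate (fun x => D.A.apply_symm_apply x) j v
  have eG : ∀ v, D.G^[j] (D.G.symm^[j] v) = v := by
    intro v
    exact Function.LeftInverse.iterate (fun x => D.G.apply_symm_apply x) j v
  rw [eA, eG, eG] at h2
  exact h2

end RK

open RK in
/-- ZK: the same data with `(A, G)` replaced by a power.  Fill in the five `sorry`s; keep the data.
`st_two`: one application of `D.st_two`, then `k - 1` applications of `D.st_two` with `st_refl`;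
`st_exp`: `St` at times `-k n` gives `St` at all times (`D.st_two` with `st_refl`), then
`D.st_exp`. -/
noncomputable def RDat.pow (D : RDat V Z) (k : ℕ) (hk : 1 ≤ k) : RDat V Z where
  Λ := D.Λ
  R := D.R
  t := D.t
  σ := D.σ
  act_eq := D.act_eq
  b := D.b
  b_symm := D.b_symm
  b_pos := D.b_pos
  conf := D.conf
  free := D.free
  A := D.A ^ k
  G := D.G ^ k
  A_symm_le := by
    intro v
    rw [A_pow_symm]
    refine (symm_le D k v).trans (mul_le_mul_of_nonneg_right ?_ (norm_nonneg v))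
    calc (1 / 2 : ℝ) ^ k ≤ (1 / 2) ^ 1 := pow_le_pow_of_le_one (by norm_num) (by norm_num) hk
      _ = 1 / 2 := pow_one _
  A_conf := by
    obtain ⟨κ, hκ, h⟩ := conf_pow D k
    refine ⟨κ, hκ, fun v w => ?_⟩
    rw [A_pow, A_pow]
    exact h v w
  norm := by
    intro a
    rw [gt_pow]
    exact norm_pow' D k a
  proper := D.proper
  cocompact := D.cocompact
  St := D.St
  st_refl := D.st_refl
  st_symm := D.st_symm
  st_act := D.st_act
  st_two := by
    intro u s s' s'' h1 h2
    obtain ⟨j, rfl⟩ : ∃ j, k = j + 1 := ⟨k - 1, by omega⟩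
    rw [A_pow, G_pow, G_pow, Function.iterate_succ_apply, Function.iterate_succ_apply,
      Function.iterate_succ_apply]
    exact step D j _ _ _ (D.st_two _ _ _ _ h1 h2)
  st_cpt := D.st_cpt
  st_chain := D.st_chain
  st_exp := by
    intro u s s' h
    refine st_exp' D k hk u s s' fun n => ?_
    have h1 := h n
    have eA : (⇑(D.A ^ k).symm) = D.A.symm^[k] := funext fun v => A_pow_symm D.A k v
    have eG : (⇑(D.G ^ k).symm) = D.G.symm^[k] := funext fun v => G_pow_symm D.G k v
    rw [eA, eG] at h1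
    exact h1

theorem RDat.pow_gt (D : RDat V Z) (k : ℕ) (hk : 1 ≤ k) : (D.pow k hk).gt = D.gt ^ k :=
  RK.gt_pow D.A D.G k

end Pool.Agent.H779R2.Fi
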