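import Pool.Agent.H779R2.Fj.RDef

set_option autoImplicit false

namespace Pool.Agent.H779R2.Fi

open Pool.Agent.H779R2.To
open Filter Topology

/-- The projection of the torus. -/
private def torq (m : ℕ) (v : Fin m → ℝ) : Fin m → AddCircle (1 : ℝ) :=
  Pi.map (fun _ : Fin m => fun x : ℝ => (x : AddCircle (1 : ℝ))) v

private theorem torq_quot (m : ℕ) : IsQuotientMap (torq m) := by
  have h : IsOpenQuotientMap
      (Pi.map (fun _ : Fin m => fun x : ℝ => (x : AddCircle (1 : ℝ)))) :=
    IsOpenQuotientMap.piMap fun _ => QuotientAddGroup.isOpenQuotientMap_mk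
  exact h.isQuotientMap

private theorem torq_eq (m : ℕ) (v w : Fin m → ℝ) :
    torq m v = torq m w ↔ ∃ z : Fin m → ℤ, w = v + fun i => (z i : ℝ) := by
  constructor
  · intro h
    have h1 : ∀ i, ∃ n : ℤ, w i = v i + n := by
      intro i
      have h2 : ((v i : ℝ) : AddCircle (1 : ℝ)) = ((w i : ℝ) : AddCircle (1 : ℝ)) := congrFun h i
      have h3 : ((w i - v i : ℝ) : AddCircle (1 : ℝ)) = 0 := by
        rw [AddCircle.coe_sub, h2, sub_self]
      obtain ⟨n, hn⟩ := (AddCircle.coe_eq_zero_iff (1 : ℝ)).mp h3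
      refine ⟨n, ?_⟩
      rw [zsmul_eq_mul, mul_one] at hn
      linarith
    choose z hz using h1
    exact ⟨z, funext hz⟩
  · rintro ⟨z, rfl⟩
    funext i
    show ((v i : ℝ) : AddCircle (1 : ℝ)) = ((v i + (z i : ℝ) : ℝ) : AddCircle (1 : ℝ))
    have h3 : (((z i : ℤ) : ℝ) : AddCircle (1 : ℝ)) = 0 :=
      (AddCircle.coe_eq_zero_iff (1 : ℝ)).mpr ⟨z i, by rw [zsmul_eq_mul, mul_one]⟩
    rw [AddCircle.coe_add, h3, add_zero]

private theorem torq_loc (m : ℕ) : IsLocalHomeomorph (torq m) := by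
  intro v
  have h0 : ∀ i : Fin m, ∃ e : OpenPartialHomeomorph ℝ (AddCircle (1 : ℝ)), v i ∈ e.source ∧
      (fun x : ℝ => (x : AddCircle (1 : ℝ))) = e := fun i =>
    AddCircle.isLocalHomeomorph_coe (1 : ℝ) (v i)
  choose e he1 he2 using h0
  refine ⟨OpenPartialHomeomorph.pi e, ?_, ?_⟩
  · show v ∈ Set.pi Set.univ fun i => (e i).source
    intro i _
    exact he1 i
  · funext w i
    show ((w i : ℝ) : AddCircle (1 : ℝ)) = (e i) (w i)
    rw [← he2 i]

/-- ZL: descent to the torus.  Model: `isToral_of_lift` (To/TTor.lean; the private lemmas `torq`,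
`torq_quot`, `torq_eq` there can be copied).  `q (torq (h y)) = P y` defines `q` (fibres: `torq v =
torq w` iff `w = v + z` with `z` integral, `hinv`); it is continuous (quotient map), surjective, and
a local homeomorphism because `q ∘ (torq ∘ h) = P` and `torq ∘ h` is a surjective local
homeomorphism (local inverse of `torq ∘ h` composed with `P`); covering by
`isLocalHomeomorph_iff_isCoveringMap` (the torus is compact, `X` is Hausdorff); finite fibres:
closed discrete subsets of a compact space (a covering map has discrete fibres). -/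
theorem isFinToral_of_lift {X Y : Type*} [TopologicalSpace X] [T2Space X] [TopologicalSpace Y]
    (P : Y → X) (hP : IsCoveringMap P) (hs : Function.Surjective P)
    {m : ℕ} (h : Y ≃ₜ (Fin m → ℝ))
    (hinv : ∀ (y y' : Y) (z : Fin m → ℤ), h y' = h y + (fun i => (z i : ℝ)) → P y' = P y)
    (A : Matrix (Fin m) (Fin m) ℤ) (hdet : IsUnit A.det) (hA : HypMat A) (F : Y → Y) (f : X → X)
    (hF : ∀ y, P (F y) = f (P y))
    (hconj : ∀ y, h (F y) = (A.map (Int.cast : ℤ → ℝ)).mulVec (h y)) : IsFinToral f := by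
  have hg : IsQuotientMap (torq m ∘ h) := (torq_quot m).comp h.isQuotientMap
  have hgl : IsLocalHomeomorph (torq m ∘ h) := (torq_loc m).comp h.isLocalHomeomorph
  have hfib : ∀ y y', (torq m ∘ h) y = (torq m ∘ h) y' → P y = P y' := by
    intro y y' hyy
    rw [Function.comp_apply, Function.comp_apply, torq_eq] at hyy
    obtain ⟨z, hz⟩ := hyy
    exact (hinv y y' z hz).symm
  set q : (Fin m → AddCircle (1 : ℝ)) → X := fun t => P (Function.surjInv hg.surjective t) with hq
  have hqP : ∀ y, q ((torq m ∘ h) y) = P y := fun y =>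
    hfib _ _ (Function.surjInv_eq hg.surjective ((torq m ∘ h) y))
  have hqc : q ∘ (torq m ∘ h) = P := funext hqP
  have hql : IsLocalHomeomorph q := by
    rw [isLocalHomeomorph_iff_isLocalHomeomorphOn_univ]
    have h1 : IsLocalHomeomorphOn (q ∘ (torq m ∘ h)) Set.univ := by
      rw [hqc]
      exact hP.isLocalHomeomorph.isLocalHomeomorphOn
    have h2 := IsLocalHomeomorphOn.of_comp_right h1 hgl.isLocalHomeomorphOn
    rwa [Set.image_univ, hg.surjective.range_eq] at h2
  have hqcov : IsCoveringMap q := isLocalHomeomorph_iff_isCoveringMap.mp hql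
  refine ⟨m, A, q, hdet, hA, hqcov, ?_, ?_, ?_⟩
  · intro x
    obtain ⟨y, rfl⟩ := hs x
    exact ⟨_, hqP y⟩
  · intro x
    refine (isClosed_singleton.preimage hql.continuous).isCompact.finite
      (.of_openPartialHomeomorph q subset_rfl ?_)
    intro e _
    obtain ⟨φ, h1, h2⟩ := hql e
    exact ⟨φ, h1, h2.symm⟩
  · intro x
    obtain ⟨y, rfl⟩ := hg.surjective x
    rw [hqP, ← hF, ← hqP]
    congr 1
    funext i
    show ∑ j, A i j • ((h y j : ℝ) : AddCircle (1 : ℝ)) = ((h (F y) i : ℝ) : AddCircle (1 : ℝ))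
    rw [hconj]
    have h1 : ((A.map (Int.cast : ℤ → ℝ)).mulVec (h y)) i = ∑ j, A i j • (h y j) := by
      simp only [Matrix.mulVec, dotProduct, Matrix.map_apply, zsmul_eq_mul]
    rw [h1]
    have h2 : ((∑ j, A i j • (h y j) : ℝ) : AddCircle (1 : ℝ)) =
        ∑ j, ((A i j • (h y j) : ℝ) : AddCircle (1 : ℝ)) :=
      map_sum (QuotientAddGroup.mk' (AddSubgroup.zmultiples (1 : ℝ))) _ _
    rw [h2]
    exact Finset.sum_congr rfl fun j _ => (AddCircle.coe_zsmul (1 : ℝ)).symm

end Pool.Agent.H779R2.Fi
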