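import Pool.Agent.H779R2.To.TMain
import Pool.Agent.H779R2.Fj.RG
import Pool.Agent.H779R2.Fj.RH5
import Pool.Agent.H779R2.Fj.RI
import Pool.Agent.H779R2.Fj.RJ3
import Pool.Agent.H779R2.Fj.RK
import Pool.Agent.H779R2.Fj.RL

set_option autoImplicit false

namespace Pool.Agent.H779R2.Fi

open Pool.Agent.H779R2.To
open Filter Topology

variable {V Z : Type*} [NormedAddCommGroup V] [NormedSpace ℝ V] [MetricSpace Z]

theorem RDat.range_fin [Nonempty Z] [FiniteDimensional ℝ V] (D : RDat V Z) :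
    (Set.range D.R).Finite := by
  obtain ⟨κ, hκ, hA⟩ := D.A_conf
  obtain ⟨e1, e2, e3, e4, e5, e6, e7⟩ := D.alg
  refine finite_of_traces D.b D.b_symm D.b_pos (Set.range D.R) ⟨1, LinearMap.ext e4⟩ ?_ ?_ ?_
    ((D.A : V →L[ℝ] V) : V →ₗ[ℝ] V) κ hκ (fun v w => hA v w) ?_
  · rintro _ ⟨a, rfl⟩ _ ⟨b, rfl⟩
    exact ⟨a * b, LinearMap.ext fun v => e1 a b v⟩
  · rintro _ ⟨a, rfl⟩
    refine ⟨D.R a⁻¹, ⟨a⁻¹, rfl⟩, LinearMap.ext fun v => ?_⟩
    have := e1 a⁻¹ a v
    rw [inv_mul_cancel, e4] at this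
    exact this.symm
  · rintro _ ⟨a, rfl⟩ v w
    exact D.iso a v w
  · intro j hj
    refine (D.trace_fin j hj).subset ?_
    rintro x ⟨_, ⟨a, rfl⟩, hx⟩
    exact ⟨a, hx⟩

theorem conj_pow {G : Type*} [Group G] (N : Subgroup G) (g : G)
    (hg : ∀ a, a ∈ N ↔ g * a * g⁻¹ ∈ N) (k : ℕ) (a : G) : a ∈ N ↔ g ^ k * a * (g ^ k)⁻¹ ∈ N := by
  induction k generalizing a with
  | zero => simp
  | succ k ih =>
    rw [hg, ih]
    have : g ^ (k + 1) * a * (g ^ (k + 1))⁻¹ = g ^ k * (g * a * g⁻¹) * (g ^ k)⁻¹ := by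
      rw [pow_succ]
      group
    rw [this]

theorem tdat_act_inj {Γ : Type*} [AddCommGroup Γ] (T : TDat V Z Γ) {a b : Γ} {y : V × Z}
    (h : T.act a y = T.act b y) : a = b := by
  have h1 : T.act (-b + a) y = y := by
    rw [T.act_add, h, ← T.act_add, neg_add_cancel, T.act_zero]
  have h2 := T.act_free _ _ h1
  rw [neg_add_eq_zero] at h2
  exact h2.symm

/-- Abstract main theorem: finite covering by a hyperbolic toral automorphism. -/
theorem finToral_of_rdat {X : Type*} [TopologicalSpace X] [T2Space X] [FiniteDimensional ℝ V]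
    [LocallyCompactSpace Z] [ConnectedSpace Z] [SimplyConnectedSpace (V × Z)]
    [LocallyPathConnectedSpace (V × Z)] (D : RDat V Z) (P : V × Z → X)
    (hP : IsCoveringMap P) (hs : Function.Surjective P)
    (hfib : ∀ y y', P y = P y' ↔ ∃ a ∈ D.Λ, y' = a y) (f g : X ≃ₜ X)
    (hg : ∀ y, P (D.gt y) = g (P y)) (n : ℕ) (hn : 1 ≤ n) (hf : ∀ x, f^[n] x = g x) :
    IsFinToral f := by
  have hne : Nonempty Z := inferInstance
  have hcon : ConnectedSpace (V × Z) := inferInstance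
  obtain ⟨y0⟩ : Nonempty (V × Z) := inferInstance
  have hfin := D.range_fin
  have hΛ : ∀ h : (V × Z) ≃ₜ (V × Z), h ∈ D.Λ ↔ ∀ y, P (h y) = P y := by
    intro h
    constructor
    · intro hh y
      exact ((hfib y (h y)).2 ⟨h, hh, rfl⟩).symm
    · intro hh
      obtain ⟨a, ha, hay⟩ := (hfib y0 (h y0)).1 (hh y0).symm
      have h1 : (h : V × Z → V × Z) = a := by
        refine hP.eq_of_comp_eq h.continuous a.continuous ?_ y0 hay
        funext z
        show P (h z) = P (a z)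
        rw [hh z]
        exact (hfib _ _).2 ⟨a, ha, rfl⟩
      have h2 : h = a := Homeomorph.ext (congrFun h1)
      rwa [h2]
  obtain ⟨F, hF⟩ := exists_lift P hP hs f
  have hFs : ∀ y, P (F⁻¹ y) = f.symm (P y) := by
    intro y
    have h1 := hF (F⁻¹ y)
    have h2 : F (F⁻¹ y) = y := F.apply_symm_apply y
    rw [h2] at h1
    rw [h1, f.symm_apply_apply]
  have hFΛ : ∀ a, a ∈ D.Λ ↔ F * a * F⁻¹ ∈ D.Λ := by
    intro a
    rw [hΛ, hΛ]
    constructor
    · intro h y
      show P (F (a (F⁻¹ y))) = P y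
      rw [hF, h, hFs, f.apply_symm_apply]
    · intro h y
      have h1 := h (F y)
      have h2 : (F * a * F⁻¹) (F y) = F (a y) := by
        show F (a (F.symm (F y))) = _
        rw [F.symm_apply_apply]
      rw [h2, hF, hF] at h1
      exact f.injective h1
  have hFn : ∀ (k : ℕ) (y : V × Z), P ((F ^ k) y) = f^[k] (P y) := by
    intro k
    induction k with
    | zero => intro y; rfl
    | succ k ih =>
      intro y
      rw [pow_succ', Function.iterate_succ_apply']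
      show P (F ((F ^ k) y)) = _
      rw [hF, ih]
  have hδ : F ^ n * D.gt⁻¹ ∈ D.Λ := by
    rw [hΛ]
    intro y
    show P ((F ^ n) (D.gt⁻¹ y)) = P y
    rw [hFn, hf, ← hg]
    congr 1
    exact D.gt.apply_symm_apply y
  obtain ⟨N, hNΛ, hNR, -, hNF, hNgt, hfi, k, hk, δ', hδ', hFk⟩ := D.exists_N' hfin F hFΛ n hn
    (F ^ n * D.gt⁻¹) hδ (by rw [inv_mul_cancel_right])
  have hgt' : ∀ a, a ∈ N ↔ (D.pow k hk).gt * a * (D.pow k hk).gt⁻¹ ∈ N := by
    intro a
    rw [RDat.pow_gt]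
    exact conj_pow N D.gt hNgt k a
  obtain ⟨Γ, T, hTgt, hTN, hNT⟩ := exists_tdat_sub (D.pow k hk) N hNΛ hNR hgt' hfi
  rw [RDat.pow_gt] at hTgt
  obtain ⟨C, h, h1, h2, h3⟩ := exists_conj T
  -- the automorphism induced by `F`
  have hψ1 : ∀ a : Γ, ∃ b : Γ, ∀ y, F (T.act a y) = T.act b (F y) := by
    intro a
    obtain ⟨c, hc, hca⟩ := hTN a
    obtain ⟨b, hb⟩ := hNT _ ((hNF c).1 hc)
    refine ⟨b, fun y => ?_⟩
    rw [← hb, ← hca]
    show F (c y) = F (c (F.symm (F y)))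
    rw [F.symm_apply_apply]
  choose ψ hψ using hψ1
  have hψadd : ∀ a b, ψ (a + b) = ψ a + ψ b := by
    intro a b
    refine tdat_act_inj T (y := F y0) ?_
    rw [← hψ, T.act_add, hψ, hψ, T.act_add]
  have hψbij : Function.Bijective (AddMonoidHom.mk' ψ hψadd) := by
    refine ⟨?_, ?_⟩
    · intro a b hab
      have hab' : ψ a = ψ b := hab
      refine tdat_act_inj T (y := y0) (F.injective ?_)
      rw [hψ, hψ, hab']
    · intro b
      obtain ⟨c, hc, hcb⟩ := hTN b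
      have hc' : F⁻¹ * c * F ∈ N := by
        rw [hNF]
        have : F * (F⁻¹ * c * F) * F⁻¹ = c := by group
        rwa [this]
      obtain ⟨a, ha⟩ := hNT _ hc'
      refine ⟨a, ?_⟩
      show ψ a = b
      refine tdat_act_inj T (y := F y0) ?_
      rw [← hψ, ← ha, ← hcb]
      show F (F.symm (c (F y0))) = _
      rw [F.apply_symm_apply]
  obtain ⟨δ'', hδ''⟩ := hNT δ' hδ'
  have hit : ∀ (j : ℕ) (y : V × Z), F^[j] y = (F ^ j) y := by
    intro j
    induction j with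
    | zero => intro y; rfl
    | succ j ih =>
      intro y
      rw [Function.iterate_succ_apply', ih, pow_succ']
      rfl
  obtain ⟨A, h', hdet, hA, h4, h5⟩ := conjF C h h1 h2 h3 F
    (AddEquiv.ofBijective (AddMonoidHom.mk' ψ hψadd) hψbij) (fun a y => hψ a y) (n * k)
    (Nat.mul_pos hn hk) δ'' (fun y => by
      rw [hit, hFk, ← hδ'', hTgt]
      rfl)
  refine isFinToral_of_lift P hP hs h' ?_ A hdet hA F f hF h5
  intro y y' z hz
  obtain ⟨c, hc, hca⟩ := hTN (C.b.symm z)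
  have h6 : y' = T.act (C.b.symm z) y := by
    apply h'.injective
    rw [h4, hz]
    congr 1
    funext i
    show (z i : ℝ) = ((C.b (C.b.symm z) i : ℤ) : ℝ)
    rw [AddEquiv.apply_symm_apply]
  rw [h6, ← hca]
  exact (hΛ c).1 (hNΛ hc) y

end Pool.Agent.H779R2.Fi
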