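import Pool.Agent.H779R2.Fj.GeDef

set_option autoImplicit false

namespace Pool.Agent.H779R2.Fi

open Pool.Agent.H721R2 Pool.Agent.H789R2.AN Pool.Agent.H789R2.GP Pool.Agent.H779R2.An
open Pool.Agent.H779R2.To Pool.Agent.H779R2.Nu
open Filter Topology

variable {X E : Type*} [MetricSpace X] [CompactSpace X] [NormedAddCommGroup E]
  [InnerProductSpace ℝ E] [FiniteDimensional ℝ E]

/-- ZN2: points of a fibre are related by deck transformations.  First half of `xi_fib`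
(To/GFib.lean), with `deckaux_tr`, `deckaux_Q` (An/LTrans.lean) instead of `deck_trans`. -/
theorem dk_fib {S : HypSys X E} {F : Flat S} {c : ℝ} {T : QS S.g c}
    (hT : ∀ a s u x, T.Q a s u x ↔ QdF F a s u x) {p : X} (x : Xi F p)
    (y y' : S.Vu p × SLf S.g p) (hy : x.P T y = x.P T y') :
    ∃ z : Leaf S.g p, z.pr T = p ∧ ∀ h, IsDk F T p z h → h y = y' := by
  obtain ⟨w, rfl⟩ := x.Ξ.surjective y
  obtain ⟨w', rfl⟩ := x.Ξ.surjective y'
  have hP : ∀ v, x.P T (x.Ξ v) = v.pr T := fun v => by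
    show (x.Ξ.symm (x.Ξ v)).pr T = _
    rw [Homeomorph.symm_apply_apply]
  rw [hP, hP] at hy
  have pw : T.Q p w.s w.u (w'.pr T) := by
    have := w.pr_spec T
    rwa [hy] at this
  have pw' := w'.pr_spec T
  generalize w'.pr T = q at pw pw'
  have e1 : WS S.g.symm w.s q := T.wU _ _ _ _ pw
  have e2 : WS S.g.symm w'.s q := T.wU _ _ _ _ pw'
  obtain ⟨ζu, hζu⟩ := T.ex w'.s p w.s w'.hs.symm' (e2.trans e1.symm')
  have f1 : WS S.g w.s ζu := T.wS _ _ _ _ hζu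
  have f2 : WS S.g.symm p ζu := T.wU _ _ _ _ hζu
  obtain ⟨ζs, hζs⟩ := T.ex ζu p p (f1.symm'.trans w.hs.symm') f2.symm'
  let ζ : Leaf S.g p := ⟨ζu, ζs, f2, T.wS _ _ _ _ hζs⟩
  have hζ : ζ.pr T = p := Leaf.pr_eq T (T.flipU _ _ _ _ hζs)
  have g1 : T.Q p w'.s ζu w.s := T.flipS _ _ _ _ hζu
  have g1' : T.Q ζu w.s p w'.s := T.flipU _ _ _ _ g1
  have g2 : T.Q ζu w.s w'.u q := T.compU _ _ _ _ _ _ g1' pw'
  have g3 : T.Q ζu p w'.u w.u := T.compS _ _ _ _ _ _ g2 (T.flipS _ _ _ _ pw)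
  have g4 : T.Q p ζu w.u w'.u := T.flipS _ _ _ _ g3
  have g5 : T.Q ζs p p ζu := T.flipS _ _ _ _ (T.flipU _ _ _ _ hζs)
  have g6 : T.Q ζs p w.u w'.u := T.compU _ _ _ _ _ _ g5 g4
  obtain ⟨hu, hs, htr⟩ := deckaux_tr F T hT p ζ hζ
  have h4 := deckaux_Q F p ζ.s w.u w'.u ((hT _ _ _ _).mp g6) hu.symm
  refine ⟨ζ, hζ, fun h hh => ?_⟩
  apply Prod.ext
  · apply Subtype.ext
    rw [hh.1, x.fst, x.fst, h4, htr]
    abel
  · apply Subtype.ext
    apply SM.ext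
    have k1 := hh.2 (x.Ξ w)
    rw [x.snd] at k1
    rw [x.snd]
    exact T.unique _ _ _ _ _ k1 g1'

end Pool.Agent.H779R2.Fi
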