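import Pool.Agent.H779R2.Fj.GeDef

set_option autoImplicit false

namespace Pool.Agent.H779R2.Fi

open Pool.Agent.H721R2 Pool.Agent.H789R2.AN Pool.Agent.H789R2.GP Pool.Agent.H779R2.An
open Pool.Agent.H779R2.To Pool.Agent.H779R2.Nu
open Filter Topology

variable {X E : Type*} [MetricSpace X] [CompactSpace X] [NormedAddCommGroup E]
  [InnerProductSpace ℝ E] [FiniteDimensional ℝ E]

/-- ZN3: a deck transformation whose affine part has a fixed point is the identity.  Second half of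
`deckaux_id` (An/LTrans.lean): from the fixed point one gets `z.s = p`, then `z.u = p`
(uniqueness), so the affine part is the identity (`H_self`, `τ_self`, `Lc_self`) and
`T.Q p s p (h (v, s)).2` gives `(h (v, s)).2 = s`. -/
theorem dk_free {S : HypSys X E} {F : Flat S} {c : ℝ} {T : QS S.g c}
    (hT : ∀ a s u x, T.Q a s u x ↔ QdF F a s u x) {p : X} (z : Leaf S.g p)
    (hz : z.pr T = p) (h : (S.Vu p × SLf S.g p) ≃ₜ (S.Vu p × SLf S.g p)) (hh : IsDk F T p z h)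
    (v : E) (hv : v ∈ S.Vu p) (hfix : F.H z.s p (F.τ p z.s v) + F.Lc p z.u = v) : h = 1 := by
  obtain ⟨hu, hs, htr⟩ := deckaux_tr F T hT p z hz
  have hzu : UAsym S p z.u := z.hu
  obtain ⟨y₀, hy₀, hy₀v⟩ := deckaux_surj F p hv
  obtain ⟨x, hx⟩ := T.ex z.s p y₀ hs (hu.trans hy₀)
  have hxQ := (hT _ _ _ _).mp hx
  have h3 := deckaux_Q F p z.s y₀ x hxQ hu.symm
  rw [hy₀v] at h3
  have h4 : F.Lc p x = F.Lc p y₀ := by
    rw [h3, hy₀v]
    conv_rhs => rw [← hfix]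
    rw [htr]
    abel
  have h6 : x = y₀ := F.inj p x y₀ hxQ.2.2.2.1 hy₀ h4
  rw [h6] at hx
  have h7 := T.flipU _ _ _ _ hx
  have huy : UAsym S y₀ z.s := (hu.trans hy₀).symm
  have h8 : T.Q y₀ y₀ z.s z.s := by
    rw [hT]
    refine ⟨SAsym.refl S y₀, huy, SAsym.refl S z.s, huy, ?_, ?_⟩
    · rw [F.H_self _ _ (F.Lc_mem _ _ huy)]
    · intro v hv
      rw [F.H_self _ _ hv, F.H_self _ _ (F.τ_mem _ _ huy _ hv)]
  have h9 : z.s = p := T.unique _ _ _ _ _ h8 h7
  have h10 : z.u = p := by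
    refine F.inj p z.u p hzu (UAsym.refl S p) ?_
    rw [htr, h9, F.Lc_self, map_zero, map_zero, neg_zero]
  apply Homeomorph.ext
  intro y
  have e1 := hh.1 y
  have e2 := hh.2 y
  rw [h9, h10, F.τ_self _ _ y.1.2, F.H_self _ _ y.1.2, F.Lc_self, add_zero] at e1
  rw [h10] at e2
  obtain ⟨_, _, _, q4, q5, _⟩ := (hT _ _ _ _).mp e2
  rw [F.Lc_self, map_zero] at q5
  have e4 : (h y).2.1.val = y.2.1.val :=
    F.inj _ _ _ q4 (UAsym.refl S _) (by rw [q5, F.Lc_self])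
  exact Prod.ext (Subtype.ext e1) (Subtype.ext (SM.ext e4))

end Pool.Agent.H779R2.Fi
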