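import Pool.Agent.H779R2.Fj.RDef

set_option autoImplicit false

namespace Pool.Agent.H779R2.Fi

open Filter Topology

private theorem deck_eq {Y : Type*} [TopologicalSpace Y] (Λ : Subgroup (Y ≃ₜ Y))
    (hfree : ∀ a ∈ Λ, ∀ y, a y = y → a = 1) {a b : Y ≃ₜ Y} (ha : a ∈ Λ) (hb : b ∈ Λ) {y : Y}
    (h : a y = b y) : a = b := by
  have h1 : (b⁻¹ * a) y = y := by
    show b.symm (a y) = y
    rw [h, b.symm_apply_apply]
  have h2 := hfree _ (Λ.mul_mem (Λ.inv_mem hb) ha) _ h1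
  exact (inv_mul_eq_one.1 h2).symm

/-- ZN4: proper discontinuity of the deck group; copy of `proper_of_cov` (To/TCov.lean) for a
subgroup of the group of homeomorphisms. -/
theorem proper_of_deck {X Y : Type*} [TopologicalSpace X] [T2Space X] [MetricSpace Y] (P : Y → X)
    (hP : IsCoveringMap P) (Λ : Subgroup (Y ≃ₜ Y))
    (hfree : ∀ a ∈ Λ, ∀ y, a y = y → a = 1)
    (hfib : ∀ y y', P y = P y' ↔ ∃ a ∈ Λ, y' = a y) (K K' : Set Y) (hK : IsCompact K)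
    (hK' : IsCompact K') : {a : Λ | ∃ y ∈ K, (a : Y ≃ₜ Y) y ∈ K'}.Finite := by
  by_contra hinf
  have hinf' : {a : Λ | ∃ y ∈ K, (a : Y ≃ₜ Y) y ∈ K'}.Infinite := hinf
  set e := hinf'.natEmbedding with he
  have hmem : ∀ n, ∃ y ∈ K, ((e n).1 : Y ≃ₜ Y) y ∈ K' := fun n => (e n).2
  choose y hyK hyK' using hmem
  obtain ⟨y0, hy0, φ, hφ, hφt⟩ := hK.tendsto_subseq hyK
  obtain ⟨y1, hy1, ψ, hψ, hψt⟩ := hK'.tendsto_subseq (fun n => hyK' (φ n))
  have hinv : ∀ a ∈ Λ, ∀ z, P (a z) = P z := fun a ha z =>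
    ((hfib z (a z)).2 ⟨a, ha, rfl⟩).symm
  have hyt : Tendsto (fun n => y (φ (ψ n))) atTop (𝓝 y0) := hφt.comp hψ.tendsto_atTop
  have hzt : Tendsto (fun n => ((e (φ (ψ n))).1 : Y ≃ₜ Y) (y (φ (ψ n)))) atTop (𝓝 y1) := hψt
  have h1 : Tendsto (fun n => P (y (φ (ψ n)))) atTop (𝓝 (P y0)) :=
    (hP.continuous.tendsto y0).comp hyt
  have h2 : Tendsto (fun n => P (y (φ (ψ n)))) atTop (𝓝 (P y1)) := by
    have h3 := (hP.continuous.tendsto y1).comp hzt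
    refine h3.congr fun n => ?_
    simp only [Function.comp_apply]
    exact hinv _ (e (φ (ψ n))).1.2 _
  have h3 : P y0 = P y1 := tendsto_nhds_unique h1 h2
  obtain ⟨a, haΛ, ha⟩ := (hfib y0 y1).1 h3
  have h4 : Tendsto (fun n => a (y (φ (ψ n)))) atTop (𝓝 y1) := by
    rw [ha]
    exact (a.continuous.tendsto y0).comp hyt
  obtain ⟨U, hUo, hyU, hUinj⟩ := hP.isLocalHomeomorph.isLocallyInjective y1
  have h5 := h4.eventually (hUo.mem_nhds hyU)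
  have h6 := hzt.eventually (hUo.mem_nhds hyU)
  obtain ⟨n, hn⟩ := Filter.eventually_atTop.1 (h5.and h6)
  have h7 : ∀ m, n ≤ m → ((e (φ (ψ m))).1 : Y ≃ₜ Y) = a := by
    intro m hm
    obtain ⟨h8, h9⟩ := hn m hm
    have h10 : ((e (φ (ψ m))).1 : Y ≃ₜ Y) (y (φ (ψ m))) = a (y (φ (ψ m))) :=
      hUinj h9 h8 (by rw [hinv _ (e (φ (ψ m))).1.2, hinv _ haΛ])
    exact deck_eq Λ hfree (e (φ (ψ m))).1.2 haΛ h10
  have h8 := (h7 n le_rfl).trans (h7 (n + 1) (Nat.le_succ n)).symm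
  have h9 : φ (ψ n) = φ (ψ (n + 1)) := e.injective (Subtype.ext (Subtype.ext h8))
  have h10 := hψ.injective (hφ.injective h9)
  omega

end Pool.Agent.H779R2.Fi
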