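import Pool.Agent.H779R2.Fj.GeDef
import Pool.Agent.H779R2.Fj.RN1
import Pool.Agent.H779R2.Fj.RN2
import Pool.Agent.H779R2.Fj.RN3
import Pool.Agent.H779R2.Fj.RN4
import Pool.Agent.H779R2.Fj.RN5
import Pool.Agent.H779R2.Fj.RM

set_option autoImplicit false

namespace Pool.Agent.H779R2.Fi

open Pool.Agent.H721R2 Pool.Agent.H789R2.AN Pool.Agent.H789R2.GP Pool.Agent.H779R2.An
open Pool.Agent.H779R2.To Pool.Agent.H779R2.Nu
open Filter Topology

variable {X E : Type*} [MetricSpace X] [CompactSpace X] [NormedAddCommGroup E]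
  [InnerProductSpace ℝ E] [FiniteDimensional ℝ E]

/-- The deck group as a subgroup of the group of homeomorphisms. -/
def deckGrp {Y X' : Type*} [TopologicalSpace Y] (P : Y → X') : Subgroup (Y ≃ₜ Y) where
  carrier := {h | ∀ y, P (h y) = P y}
  mul_mem' := by
    intro a b ha hb y
    show P (a (b y)) = P y
    rw [ha, hb]
  one_mem' := fun y => rfl
  inv_mem' := by
    intro a ha y
    have h1 := ha (a⁻¹ y)
    have h2 : a (a⁻¹ y) = y := a.apply_symm_apply y
    rw [h2] at h1
    exact h1.symm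

/-- The deck group as abstract data, from a quadrilateral structure with affine holonomies and an
invariant conformal structure. -/
theorem exists_rdat {E' : Type*} [NormedAddCommGroup E'] [NormedSpace ℝ E'] [ProperSpace E']
    [ChartedSpace E' X] [PreconnectedSpace X] {S : HypSys X E} {F : Flat S} (B : CS0 S)
    {c c' : ℝ} {T : QS S.g c} (h : LP S.g c')
    (hc : 0 < c) (hT : ∀ a s u x, T.Q a s u x ↔ QdF F a s u x) (p : X) (N : ℕ) (hN : 1 ≤ N)
    (hp : S.g^[N] p = p) :
    ∃ (D : RDat (S.Vu p) (SLf S.g p)) (P : S.Vu p × SLf S.g p → X),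
      LocallyCompactSpace (SLf S.g p) ∧ ConnectedSpace (SLf S.g p) ∧
      SimplyConnectedSpace (S.Vu p × SLf S.g p) ∧
      LocallyPathConnectedSpace (S.Vu p × SLf S.g p) ∧
      IsCoveringMap P ∧ Function.Surjective P ∧
      (∀ y y', P y = P y' ↔ ∃ a ∈ D.Λ, y' = a y) ∧ ∀ y, P (D.gt y) = S.g^[N] (P y) := by
  classical
  obtain ⟨x⟩ := exists_xi F p
  obtain ⟨A, hA, hA'⟩ := exists_A S p N hN hp
  obtain ⟨G, hG⟩ := exists_G S.g p N hp
  obtain ⟨hpc, hlc, hsc, hlp⟩ := leaf_top (E' := E') h hc T x N hN hp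
  have hcov : IsCoveringMap (x.P T) := (pr_isCoveringMap h hc T p).comp_homeomorph x.Ξ.symm
  have hneY : Nonempty (S.Vu p × SLf S.g p) := ⟨x.Ξ (Leaf.base _ _)⟩
  have hsurj : Function.Surjective (x.P T) := covering_surj hcov
  have hneZ : Nonempty (SLf S.g p) := ⟨(x.Ξ (Leaf.base _ _)).2⟩
  have hcZ : ConnectedSpace (SLf S.g p) := inferInstance
  have hcY : ConnectedSpace (S.Vu p × SLf S.g p) := inferInstance
  let Λ : Subgroup ((S.Vu p × SLf S.g p) ≃ₜ (S.Vu p × SLf S.g p)) := deckGrp (x.P T)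
  have hΛ : ∀ a, a ∈ Λ ↔ ∀ y, x.P T (a y) = x.P T y := fun a => Iff.rfl
  have huniq : ∀ a ∈ Λ, ∀ b ∈ Λ, ∀ y, a y = b y → a = b := by
    intro a ha b hb y hab
    have h1 : (a : (S.Vu p × SLf S.g p) → (S.Vu p × SLf S.g p)) = b := by
      refine hcov.eq_of_comp_eq a.continuous b.continuous ?_ y hab
      funext w
      show x.P T (a w) = x.P T (b w)
      rw [(hΛ a).1 ha, (hΛ b).1 hb]
    exact Homeomorph.ext (congrFun h1)
  have hdk : ∀ a : Λ, ∃ z : Leaf S.g p, z.pr T = p ∧ IsDk F T p z a := by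
    intro a
    obtain ⟨y0⟩ := hneY
    obtain ⟨z, hz, hzy⟩ := dk_fib hT x y0 ((a : (S.Vu p × SLf S.g p) ≃ₜ (S.Vu p × SLf S.g p)) y0) ((hΛ a).1 a.2 y0).symm
    obtain ⟨k, hk, hkP⟩ := exists_dk hc hT x z hz
    have h1 : k = a := huniq k ((hΛ k).2 hkP) a a.2 y0 (hzy k hk)
    exact ⟨z, hz, h1 ▸ hk⟩
  choose z hz hzD using hdk
  have hzt := fun a => deckaux_tr F T hT p (z a) (hz a)
  have hfib : ∀ y y', x.P T y = x.P T y' ↔ ∃ a ∈ Λ, y' = a y := by
    intro y y'
    constructor
    · intro hy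
      obtain ⟨z, hz, hzy⟩ := dk_fib hT x y y' hy
      obtain ⟨k, hk, hkP⟩ := exists_dk hc hT x z hz
      exact ⟨k, (hΛ k).2 hkP, (hzy k hk).symm⟩
    · rintro ⟨a, ha, rfl⟩
      exact ((hΛ a).1 ha y).symm
  have hgtP : ∀ y, x.P T ((A.toHomeomorph.prodCongr G) y) = S.g^[N] (x.P T y) :=
    xi_gt hT x N hp A hA G hG
  have hgtI : ∀ y, S.g^[N] (x.P T ((A.toHomeomorph.prodCongr G)⁻¹ y)) = x.P T y := by
    intro y
    rw [← hgtP]
    congr 1
    exact (A.toHomeomorph.prodCongr G).apply_symm_apply y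
  have hginj : Function.Injective (S.g^[N]) := Function.Injective.iterate S.g.injective N
  obtain ⟨κ₀, hκ₀, hκA⟩ := cs0_Dn B N p
  rw [hp] at hκA
  obtain ⟨ε₁, hε₁, hcpt⟩ := xi_cpt hc hT x
  set ε := min ε₁ (F.ε₀ / 2) with hεdef
  have hε₀ := F.geo.pos
  have hε : 0 < ε := by positivity
  have hdist : ∀ a b, S.SRel ε a b → dist a b ≤ ε := fun a b hab => hab 0
  have htri : ∀ a b d, S.SRel ε a b → S.SRel ε b d → S.SRel F.ε₀ a d := by
    intro a b d h1 h3 k
    have h4 : ε ≤ F.ε₀ / 2 := min_le_right _ _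
    have := dist_triangle (S.g^[k] a) (S.g^[k] b) (S.g^[k] d)
    have h5 := h1 k
    have h6 := h3 k
    linarith
  have hstep : ∀ a b d, S.SRel ε a b → S.SRel ε b d →
      S.SRel ε (S.g^[N] a) (S.g^[N] d) := by
    intro a b d h1 h3 k
    have h4 := F.geo.scontr a d (htri a b d h1 h3) (k + N)
    rw [← Function.iterate_add_apply, ← Function.iterate_add_apply]
    refine h4.trans ?_
    have h5 : dist a d ≤ 2 * ε := by
      have := dist_triangle a b d
      linarith [hdist a b h1, hdist b d h3]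
    have h6 : (1 / 8 : ℝ) ^ (k + N) ≤ 1 / 8 := by
      obtain ⟨j, hj⟩ : ∃ j, k + N = j + 1 := ⟨k + N - 1, by omega⟩
      rw [hj, pow_succ]
      have : (1 / 8 : ℝ) ^ j ≤ 1 := pow_le_one₀ (by norm_num) (by norm_num)
      linarith
    calc (1 / 8 : ℝ) ^ (k + N) * dist a d ≤ 1 / 8 * (2 * ε) :=
          mul_le_mul h6 h5 dist_nonneg (by norm_num)
      _ ≤ ε := by linarith
  have hRmem : ∀ a : Λ, ∀ v ∈ S.Vu p,
      ((F.H (z a).s p).comp (F.τ p (z a).s)) v ∈ S.Vu p := fun a v hv =>
    F.H_mem _ _ (hzt a).2.1 _ (F.τ_mem _ _ (hzt a).1.symm _ hv)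
  have hact : ∀ (a : Λ) (y : S.Vu p × SLf S.g p), (a : (S.Vu p × SLf S.g p) ≃ₜ (S.Vu p × SLf S.g p)) y =
      (((F.H (z a).s p).comp (F.τ p (z a).s)).restrict (hRmem a) y.1 +
        (⟨F.Lc p (z a).u, F.Lc_mem p _ (z a).hu⟩ : S.Vu p), ((a : (S.Vu p × SLf S.g p) ≃ₜ (S.Vu p × SLf S.g p)) (0, y.2)).2) := by
    intro a y
    refine Prod.ext ?_ ?_
    · apply Subtype.ext
      exact (hzD a).1 y
    · apply Subtype.ext
      apply SM.ext
      exact T.unique _ _ _ _ _ ((hzD a).2 y) ((hzD a).2 (0, y.2))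
  let D : RDat (S.Vu p) (SLf S.g p) :=
    { Λ := Λ
      R := fun a => ((F.H (z a).s p).comp (F.τ p (z a).s)).restrict (hRmem a)
      t := fun a => ⟨F.Lc p (z a).u, F.Lc_mem p _ (z a).hu⟩
      σ := fun a s => ((a : (S.Vu p × SLf S.g p) ≃ₜ (S.Vu p × SLf S.g p)) (0, s)).2
      act_eq := hact
      b := (B.B p).domRestrict₁₂ (S.Vu p) (S.Vu p)
      b_symm := fun v w => B.symm p v v.2 w w.2
      b_pos := fun v hv => B.pos p v v.2 (fun h0 => hv (Subtype.ext h0))
      conf := by
        intro a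
        obtain ⟨κ1, h1, h1'⟩ := cs0_tau B F p (z a).s (hzt a).1.symm
        obtain ⟨κ2, h2, h2'⟩ := cs0_hol B F (z a).s p (hzt a).2.1
        refine ⟨κ2 * κ1, by positivity, fun v w => ?_⟩
        show B.B p (F.H (z a).s p (F.τ p (z a).s v)) (F.H (z a).s p (F.τ p (z a).s w)) =
          κ2 * κ1 * B.B p v w
        rw [h2' _ (F.τ_mem _ _ (hzt a).1.symm _ v.2) _ (F.τ_mem _ _ (hzt a).1.symm _ w.2),
          h1' _ v.2 _ w.2, mul_assoc]
      free := by
        intro a v hv
        apply Subtype.ext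
        exact dk_free hT (z a) (hz a) _ (hzD a) v v.2 (congrArg Subtype.val hv)
      A := A
      G := G
      A_symm_le := hA'
      A_conf := ⟨κ₀, hκ₀, fun v w => by
        have := hκA v v.2 w w.2
        rw [← hA, ← hA] at this
        exact this⟩
      norm := by
        intro a
        rw [hΛ, hΛ]
        constructor
        · intro ha y
          show x.P T ((A.toHomeomorph.prodCongr G) (a ((A.toHomeomorph.prodCongr G)⁻¹ y))) = _
          rw [hgtP, ha, hgtI]
        · intro ha y
          have h1 := ha ((A.toHomeomorph.prodCongr G) y)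
          have h2 : ((A.toHomeomorph.prodCongr G) * a * (A.toHomeomorph.prodCongr G)⁻¹)
              ((A.toHomeomorph.prodCongr G) y) = (A.toHomeomorph.prodCongr G) (a y) := by
            show (A.toHomeomorph.prodCongr G) (a ((A.toHomeomorph.prodCongr G).symm
              ((A.toHomeomorph.prodCongr G) y))) = _
            rw [Homeomorph.symm_apply_apply]
          rw [h2, hgtP, hgtP] at h1
          exact hginj h1
      proper := proper_of_deck (x.P T) hcov Λ
        (fun a ha y hy => huniq a ha 1 Λ.one_mem y hy) hfib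
      cocompact := by
        obtain ⟨K, hK, hK'⟩ := cocompact_of_cov (x.P T) hcov hsurj
        refine ⟨K, hK, fun y => ?_⟩
        obtain ⟨y', hy', hyy⟩ := hK' (x.P T y)
        obtain ⟨a, ha, hay⟩ := (hfib y y').mp hyy.symm
        exact ⟨⟨a, ha⟩, hay ▸ hy'⟩
      St := fun u s s' => S.SRel ε (x.P T (u, s)) (x.P T (u, s'))
      st_refl := fun u s k => by rw [dist_self]; exact hε.le
      st_symm := fun u s s' hs k => by rw [dist_comm]; exact hs k
      st_act := fun a u s s' hs => by
        have h1 := hact a (u, s)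
        have h3 := hact a (u, s')
        have h4 := (hΛ a).1 a.2 (u, s)
        have h5 := (hΛ a).1 a.2 (u, s')
        rw [h1] at h4
        rw [h3] at h5
        show S.SRel ε (x.P T (_, _)) (x.P T (_, _))
        rw [h4, h5]
        exact hs
      st_two := fun u s s' s'' h1 h3 => by
        have h4 := hgtP (u, s)
        have h5 := hgtP (u, s'')
        change x.P T (A u, G s) = _ at h4
        change x.P T (A u, G s'') = _ at h5
        change S.SRel ε (x.P T (A u, G s)) (x.P T (A u, G s''))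
        rw [h4, h5]
        exact hstep _ _ _ h1 h3
      st_cpt := fun K hK => hcpt ε hε (min_le_left _ _) K hK
      st_chain := fun B K hB hK => xi_chain hc hT x ε hε B K hB hK
      st_exp := fun u s s' hs => by
        apply xi_inj hT x u s s'
        have key : ∀ (j : ℕ) (s : SLf S.g p),
            x.P T (u, s) = S.g^[N * j] (x.P T (A.symm^[j] u, G.symm^[j] s)) := by
          intro j
          induction j with
          | zero => intro s; rfl
          | succ j ih =>
            intro s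
            rw [ih s, Nat.mul_succ, Function.iterate_add_apply]
            congr 1
            rw [Function.iterate_succ_apply', Function.iterate_succ_apply']
            have h4 := hgtP (A.symm (A.symm^[j] u), G.symm (G.symm^[j] s))
            rw [← h4]
            congr 1
            refine Prod.ext ?_ ?_
            · exact (A.apply_symm_apply _).symm
            · exact (G.apply_symm_apply _).symm
        have h4 : ∀ j : ℕ, dist (x.P T (u, s)) (x.P T (u, s')) ≤ (1 / 8 : ℝ) ^ j * ε := by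
          intro j
          rw [key j s, key j s']
          have h5 := F.geo.scontr _ _ ((hs j).mono ((min_le_right _ _).trans (by linarith)))
            (N * j)
          have h6 : (1 / 8 : ℝ) ^ (N * j) ≤ (1 / 8) ^ j :=
            pow_le_pow_of_le_one (by norm_num) (by norm_num) (Nat.le_mul_of_pos_left j hN)
          exact h5.trans (mul_le_mul h6 (hdist _ _ (hs j)) dist_nonneg (by positivity))
        have h5 : Tendsto (fun j : ℕ => (1 / 8 : ℝ) ^ j * ε) atTop (𝓝 0) := by
          have := (tendsto_pow_atTop_nhds_zero_of_lt_one (by norm_num : (0 : ℝ) ≤ 1 / 8)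
            (by norm_num)).mul_const ε
          simpa using this
        exact dist_le_zero.mp (ge_of_tendsto' h5 h4) }
  exact ⟨D, x.P T, hlc, hcZ, hsc, hlp, hcov, hsurj, hfib, fun y => hgtP y⟩

/-- Finite covering by a hyperbolic toral automorphism. -/
theorem exists_fin {E' : Type*} [NormedAddCommGroup E'] [NormedSpace ℝ E'] [ProperSpace E']
    [ChartedSpace E' X] [PreconnectedSpace X] {S : HypSys X E} {F : Flat S} (B : CS0 S)
    {c c' : ℝ} {T : QS S.g c} (h : LP S.g c')
    (hc : 0 < c) (hT : ∀ a s u x, T.Q a s u x ↔ QdF F a s u x) (p : X) (N : ℕ) (hN : 1 ≤ N)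
    (hp : S.g^[N] p = p) (f : X ≃ₜ X) (n : ℕ) (hn : 1 ≤ n) (hf : ∀ x, f^[n] x = S.g x) :
    IsFinToral f := by
  obtain ⟨D, P, h1, h2, h3, h4, hcov, hsurj, hfib, hgt⟩ :=
    exists_rdat (E' := E') B h hc hT p N hN hp
  have hit : ∀ y, S.g^[N] y = (f^[n * N]) y := by
    intro y
    have : (S.g : X → X) = f^[n] := funext fun z => (hf z).symm
    rw [this, ← Function.iterate_mul]
  let gN : X ≃ₜ X :=
    { toFun := S.g^[N]
      invFun := S.g.symm^[N]
      left_inv := iter_symm_iter S N
      right_inv := iter_iter_symm S N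
      continuous_toFun := S.g.continuous.iterate N
      continuous_invFun := S.g.symm.continuous.iterate N }
  exact finToral_of_rdat D P hcov hsurj hfib f gN (fun y => hgt y) (n * N)
    (Nat.mul_pos hn hN) (fun y => (hit y).symm)

end Pool.Agent.H779R2.Fi
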