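import Pool.Agent.H779R2.Fj.RW1
import Pool.Agent.H779R2.Fj.RW2

set_option autoImplicit false

namespace Pool.Agent.H779R2.Fi

open Pool.Agent.H779R2.To
open Filter Topology

namespace RW3x

theorem cast_mulVec {m : ℕ} (B : Matrix (Fin m) (Fin m) ℤ) (z : Fin m → ℤ) :
    (B.map (Int.cast : ℤ → ℝ)).mulVec (fun i => (z i : ℝ)) = fun i => ((B.mulVec z) i : ℝ) := by
  funext i
  simp [Matrix.mulVec, dotProduct]

theorem uniq {m : ℕ} (a : (Fin m → ℝ) → (Fin m → ℝ)) (B B' : Matrix (Fin m) (Fin m) ℤ)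
    (h : ∀ (z : Fin m → ℤ) (v : Fin m → ℝ),
      a (v + fun i => (z i : ℝ)) = a v + fun i => ((B.mulVec z) i : ℝ))
    (h' : ∀ (z : Fin m → ℤ) (v : Fin m → ℝ),
      a (v + fun i => (z i : ℝ)) = a v + fun i => ((B'.mulVec z) i : ℝ)) : B = B' := by
  have h1 : ∀ z, B.mulVec z = B'.mulVec z := by
    intro z
    have h2 := (h z 0).symm.trans (h' z 0)
    have h3 := add_left_cancel h2
    funext i
    have h4 := congrFun h3 i
    exact_mod_cast h4
  exact Matrix.ext_of_mulVec_single fun i => h1 _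

end RW3x

open RW3x in
/-- ZW3: a group `Λ` of homeomorphisms of `ℝ^m` containing the integral translations as a normal
subgroup of finite index and normalized by a hyperbolic integral matrix is a group of affine maps.
-/
theorem affine_of_norm {m : ℕ} (Λ N : Subgroup ((Fin m → ℝ) ≃ₜ (Fin m → ℝ))) (hNΛ : N ≤ Λ)
    (hnorm : ∀ b ∈ Λ, ∀ a, a ∈ N ↔ b * a * b⁻¹ ∈ N)
    (hfi : ∃ s : Set ((Fin m → ℝ) ≃ₜ (Fin m → ℝ)), s.Finite ∧ s ⊆ Λ ∧
      ∀ a ∈ Λ, ∃ c ∈ s, c * a ∈ N)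
    (hN : ∀ a, a ∈ N ↔ ∃ z : Fin m → ℤ, ∀ v, a v = v + fun i => (z i : ℝ))
    (A : Matrix (Fin m) (Fin m) ℤ) (hdet : IsUnit A.det) (hA : HypMat A)
    (F : (Fin m → ℝ) ≃ₜ (Fin m → ℝ)) (hF : ∀ v, F v = (A.map (Int.cast : ℤ → ℝ)).mulVec v)
    (hFΛ : ∀ a, a ∈ Λ ↔ F * a * F⁻¹ ∈ Λ) :
    ∀ a ∈ Λ, ∃ (B : Matrix (Fin m) (Fin m) ℤ) (b : Fin m → ℝ),
      ∀ v, a v = (B.map (Int.cast : ℤ → ℝ)).mulVec v + b := by
  classical
  have key : ∀ a : (Fin m → ℝ) ≃ₜ (Fin m → ℝ), ∃ (B : Matrix (Fin m) (Fin m) ℤ) (M : ℝ), a ∈ Λ →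
      (∀ (z : Fin m → ℤ) (v : Fin m → ℝ),
        a (v + fun i => (z i : ℝ)) = a v + fun i => ((B.mulVec z) i : ℝ)) ∧
      ∀ v, ‖a v - (B.map (Int.cast : ℤ → ℝ)).mulVec v‖ ≤ M := by
    intro a
    by_cases ha : a ∈ Λ
    · obtain ⟨B, M, h1, h2⟩ := per_aff a a.continuous (by
        intro z
        have hc : (Homeomorph.addRight (fun i => (z i : ℝ)) : (Fin m → ℝ) ≃ₜ (Fin m → ℝ)) ∈ N :=
          (hN _).2 ⟨z, fun v => rfl⟩
        obtain ⟨z', hz'⟩ := (hN _).1 ((hnorm a ha _).1 hc)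
        refine ⟨z', fun v => ?_⟩
        have h3 := hz' (a v)
        rw [Homeomorph.mul_apply, Homeomorph.mul_apply] at h3
        have h4 : (a⁻¹ : (Fin m → ℝ) ≃ₜ (Fin m → ℝ)) (a v) = v := a.symm_apply_apply v
        rw [h4] at h3
        exact h3)
      exact ⟨B, M, fun _ => ⟨h1, h2⟩⟩
    · exact ⟨0, 0, fun h => absurd h ha⟩
  choose B M hBM using key
  obtain ⟨e, he⟩ : ∃ e : ((Fin m → ℝ) ≃ₜ (Fin m → ℝ)) → (Fin m → ℝ) → (Fin m → ℝ),
    ∀ a v, e a v = a v - ((B a).map (Int.cast : ℤ → ℝ)).mulVec v := ⟨_, fun _ _ => rfl⟩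
  -- step 1
  have step1 : ∀ a ∈ Λ, ∀ v, e (F * a * F⁻¹) (F v) = (A.map (Int.cast : ℤ → ℝ)).mulVec (e a v) := by
    intro a ha v
    have ha' := (hFΛ a).1 ha
    have hact : ∀ v, (F * a * F⁻¹) (F v) = F (a v) := by
      intro v
      rw [Homeomorph.mul_apply, Homeomorph.mul_apply]
      have h4 : (F⁻¹ : (Fin m → ℝ) ≃ₜ (Fin m → ℝ)) (F v) = v := F.symm_apply_apply v
      rw [h4]
    have hFz : ∀ (v : Fin m → ℝ) (z : Fin m → ℤ),
        F (v + fun i => (z i : ℝ)) = F v + fun i => ((A.mulVec z) i : ℝ) := by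
      intro v z
      rw [hF, hF, Matrix.mulVec_add, cast_mulVec]
    have hBA : B (F * a * F⁻¹) * A = A * B a := by
      have h1 : ∀ z, (B (F * a * F⁻¹) * A).mulVec z = (A * B a).mulVec z := by
        intro z
        have h2 := (hBM _ ha').1 (A.mulVec z) (F 0)
        rw [← hFz 0 z, hact, (hBM a ha).1 z 0, hFz, hact] at h2
        have h3 := add_left_cancel h2
        rw [← Matrix.mulVec_mulVec, ← Matrix.mulVec_mulVec]
        funext i
        have h4 := congrFun h3 i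
        exact_mod_cast h4.symm
      exact Matrix.ext_of_mulVec_single fun i => h1 _
    have hBAr : (B (F * a * F⁻¹)).map (Int.cast : ℤ → ℝ) * A.map (Int.cast : ℤ → ℝ) =
        A.map (Int.cast : ℤ → ℝ) * (B a).map (Int.cast : ℤ → ℝ) := by
      have h1 := congrArg (fun X : Matrix (Fin m) (Fin m) ℤ => X.map (Int.castRingHom ℝ)) hBA
      simp only [Matrix.map_mul] at h1
      exact h1
    rw [he, he, hact, hF (a v), hF v, Matrix.mulVec_sub, Matrix.mulVec_mulVec,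
      Matrix.mulVec_mulVec, hBAr]
  -- the uniform bound
  obtain ⟨s, hs, hsΛ, hs2⟩ := hfi
  obtain ⟨M0, hM0⟩ := (hs.image (fun c => 2 * M c⁻¹)).bddAbove
  have bound : ∀ a ∈ Λ, ∀ v v', ‖e a v - e a v'‖ ≤ M0 := by
    intro a ha v v'
    obtain ⟨c, hcs, hcN⟩ := hs2 a ha
    have hcΛ : c⁻¹ ∈ Λ := Λ.inv_mem (hsΛ hcs)
    obtain ⟨z, hz⟩ := (hN _).1 hcN
    have hav : ∀ v, a v = c⁻¹ v + fun i => (((B c⁻¹).mulVec z) i : ℝ) := by
      intro v
      have h1 := hz v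
      rw [Homeomorph.mul_apply] at h1
      have h2 : (c⁻¹ : (Fin m → ℝ) ≃ₜ (Fin m → ℝ)) (c (a v)) = a v := c.symm_apply_apply _
      rw [h1, (hBM _ hcΛ).1 z v] at h2
      exact h2.symm
    have hB : B a = B c⁻¹ := by
      refine uniq a _ _ (hBM a ha).1 fun z' v => ?_
      rw [hav, hav, (hBM _ hcΛ).1 z' v]
      abel
    have he2 : ∀ v, e a v = e c⁻¹ v + fun i => (((B c⁻¹).mulVec z) i : ℝ) := by
      intro v
      rw [he, he, hB, hav]
      abel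
    have h3 : e a v - e a v' = e c⁻¹ v - e c⁻¹ v' := by
      rw [he2, he2]
      abel
    rw [h3]
    have h4 := (hBM _ hcΛ).2 v
    have h5 := (hBM _ hcΛ).2 v'
    rw [← he] at h4 h5
    have h6 := hM0 ⟨c, hcs, rfl⟩
    have h7 := norm_sub_le (e c⁻¹ v) (e c⁻¹ v')
    simp only at h6
    linarith
  -- conjugates by powers
  have hconj : ∀ a ∈ Λ, ∀ j : ℤ, F ^ j * a * (F ^ j)⁻¹ ∈ Λ := by
    intro a ha j
    have hs1 : ∀ j : ℤ, F ^ (j + 1) * a * (F ^ (j + 1))⁻¹ = F * (F ^ j * a * (F ^ j)⁻¹) * F⁻¹ := by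
      intro j
      rw [add_comm j 1, zpow_add, zpow_one]
      group
    induction j using Int.induction_on with
    | zero => simpa using ha
    | succ j ih =>
      rw [hs1]
      exact (hFΛ _).1 ih
    | pred j ih =>
      have h1 := hs1 (-(j : ℤ) - 1)
      rw [sub_add_cancel] at h1
      rw [h1] at ih
      exact (hFΛ _).2 ih
  intro a ha
  have hconst : ∀ v v', e a v = e a v' := by
    intro v v'
    have h0 := hyp_bdd A hdet hA (fun j : ℤ => e (F ^ j * a * (F ^ j)⁻¹) ((F ^ j) v) -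
      e (F ^ j * a * (F ^ j)⁻¹) ((F ^ j) v')) (by
        intro j
        have hs1 : F ^ (j + 1) * a * (F ^ (j + 1))⁻¹ = F * (F ^ j * a * (F ^ j)⁻¹) * F⁻¹ := by
          rw [add_comm j 1, zpow_add, zpow_one]
          group
        have hs2 : ∀ v, (F ^ (j + 1)) v = F ((F ^ j) v) := by
          intro v
          rw [add_comm j 1, zpow_add, zpow_one]
          rfl
        rw [hs1, hs2, hs2, step1 _ (hconj a ha j), step1 _ (hconj a ha j), Matrix.mulVec_sub])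
      M0 (fun j => bound _ (hconj a ha j) _ _)
    simp only [zpow_zero, one_mul, inv_one, mul_one] at h0
    have h1 : ((1 : (Fin m → ℝ) ≃ₜ (Fin m → ℝ)) : (Fin m → ℝ) → (Fin m → ℝ)) v = v := rfl
    have h2 : ((1 : (Fin m → ℝ) ≃ₜ (Fin m → ℝ)) : (Fin m → ℝ) → (Fin m → ℝ)) v' = v' := rfl
    rw [h1, h2] at h0
    exact sub_eq_zero.1 h0
  refine ⟨B a, e a 0, fun v => ?_⟩
  have h1 := hconst v 0
  rw [← h1, he]
  abel

end Pool.Agent.H779R2.Fi
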