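import Pool.Agent.H779R2.To.TMain
import Pool.Agent.H779R2.Fj.RM
import Pool.Agent.H779R2.Fj.RJ3
import Pool.Agent.H779R2.Fj.RW3

set_option autoImplicit false

namespace Pool.Agent.H779R2.Fi

open Pool.Agent.H779R2.To
open Filter Topology

variable {V Z : Type*} [NormedAddCommGroup V] [NormedSpace ℝ V] [MetricSpace Z]

/-- `f` is topologically conjugate to a hyperbolic automorphism of a compact flat manifold.  There
are a group `Γ` of affine maps of `ℝᵐ` with integral linear parts, acting freely and containing the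
integral translations as a subgroup of finite index, a hyperbolic matrix `A ∈ GL(m, ℤ)` with
`A Γ A⁻¹ = Γ`, and a covering map `q` of `ℝᵐ` onto the space whose fibres are the orbits of `Γ` (so
the space is homeomorphic to `ℝᵐ / Γ`) and which carries `A` to `f`. -/
def IsFlatAuto {X : Type*} [TopologicalSpace X] (f : X → X) : Prop :=
  ∃ (m : ℕ) (Γ : Subgroup ((Fin m → ℝ) ≃ₜ (Fin m → ℝ))) (A : Matrix (Fin m) (Fin m) ℤ)
    (q : (Fin m → ℝ) → X),
    (∀ a ∈ Γ, ∃ (B : Matrix (Fin m) (Fin m) ℤ) (b : Fin m → ℝ),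
      ∀ v, a v = (B.map (Int.cast : ℤ → ℝ)).mulVec v + b) ∧
    (∀ z : Fin m → ℤ, ∃ a ∈ Γ, ∀ v, a v = v + fun i => (z i : ℝ)) ∧
    (∃ s : Set ((Fin m → ℝ) ≃ₜ (Fin m → ℝ)), s.Finite ∧ s ⊆ Γ ∧
      ∀ a ∈ Γ, ∃ c ∈ s, ∃ z : Fin m → ℤ, ∀ v, a v = c v + fun i => (z i : ℝ)) ∧
    (∀ a ∈ Γ, ∀ v, a v = v → a = 1) ∧
    IsUnit A.det ∧ HypMat A ∧
    (∀ a ∈ Γ, ∃ a' ∈ Γ, ∀ v, (A.map (Int.cast : ℤ → ℝ)).mulVec (a v) =
      a' ((A.map (Int.cast : ℤ → ℝ)).mulVec v)) ∧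
    (∀ a' ∈ Γ, ∃ a ∈ Γ, ∀ v, (A.map (Int.cast : ℤ → ℝ)).mulVec (a v) =
      a' ((A.map (Int.cast : ℤ → ℝ)).mulVec v)) ∧
    IsCoveringMap q ∧ Function.Surjective q ∧ (∀ v w, q v = q w ↔ ∃ a ∈ Γ, w = a v) ∧
    ∀ v, q ((A.map (Int.cast : ℤ → ℝ)).mulVec v) = f (q v)

/-- Conjugation by a homeomorphism. -/
def cj {Y Y' : Type*} [TopologicalSpace Y] [TopologicalSpace Y'] (h : Y ≃ₜ Y') :
    (Y' ≃ₜ Y') →* (Y ≃ₜ Y) where
  toFun b := (h.trans b).trans h.symm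
  map_one' := by
    ext y
    exact h.symm_apply_apply y
  map_mul' a b := by
    ext y
    show h.symm (a (b (h y))) = h.symm (a (h (h.symm (b (h y)))))
    rw [h.apply_symm_apply]

theorem cj_apply {Y Y' : Type*} [TopologicalSpace Y] [TopologicalSpace Y'] (h : Y ≃ₜ Y')
    (b : Y' ≃ₜ Y') (y : Y) : cj h b y = h.symm (b (h y)) := rfl

theorem cj_cj {Y Y' : Type*} [TopologicalSpace Y] [TopologicalSpace Y'] (h : Y ≃ₜ Y')
    (a : Y ≃ₜ Y) : cj h (cj h.symm a) = a := by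
  ext y
  show h.symm (h (a (h.symm (h y)))) = a y
  rw [h.symm_apply_apply, h.symm_apply_apply]

theorem cj_cj' {Y Y' : Type*} [TopologicalSpace Y] [TopologicalSpace Y'] (h : Y ≃ₜ Y')
    (a : Y' ≃ₜ Y') : cj h.symm (cj h a) = a := by
  ext y
  show h (h.symm (a (h (h.symm y)))) = a y
  rw [h.apply_symm_apply, h.apply_symm_apply]

/-- The core of the argument. -/
theorem core_of_rdat {X : Type*} [TopologicalSpace X] [T2Space X] [FiniteDimensional ℝ V]
    [LocallyCompactSpace Z] [ConnectedSpace Z] [SimplyConnectedSpace (V × Z)]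
    [LocallyPathConnectedSpace (V × Z)] (D : RDat V Z) (P : V × Z → X)
    (hP : IsCoveringMap P) (hs : Function.Surjective P)
    (hfib : ∀ y y', P y = P y' ↔ ∃ a ∈ D.Λ, y' = a y) (f g : X ≃ₜ X)
    (hg : ∀ y, P (D.gt y) = g (P y)) (n : ℕ) (hn : 1 ≤ n) (hf : ∀ x, f^[n] x = g x) :
    ∃ (m : ℕ) (h : (V × Z) ≃ₜ (Fin m → ℝ)) (A : Matrix (Fin m) (Fin m) ℤ)
      (N : Subgroup ((V × Z) ≃ₜ (V × Z))) (F : (V × Z) ≃ₜ (V × Z)),
      IsUnit A.det ∧ HypMat A ∧ N ≤ D.Λ ∧ (∀ b ∈ D.Λ, ∀ a, a ∈ N ↔ b * a * b⁻¹ ∈ N) ∧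
      (∃ s : Set ((V × Z) ≃ₜ (V × Z)), s.Finite ∧ s ⊆ D.Λ ∧ ∀ a ∈ D.Λ, ∃ c ∈ s, c * a ∈ N) ∧
      (∀ a, a ∈ N ↔ ∃ z : Fin m → ℤ, ∀ y, h (a y) = h y + fun i => (z i : ℝ)) ∧
      (∀ z : Fin m → ℤ, ∃ a ∈ N, ∀ y, h (a y) = h y + fun i => (z i : ℝ)) ∧
      (∀ a, a ∈ D.Λ ↔ F * a * F⁻¹ ∈ D.Λ) ∧ (∀ y, P (F y) = f (P y)) ∧
      (∀ a ∈ D.Λ, ∀ y, a y = y → a = 1) ∧
      ∀ y, h (F y) = (A.map (Int.cast : ℤ → ℝ)).mulVec (h y) := by
  have hne : Nonempty Z := inferInstance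
  have hcon : ConnectedSpace (V × Z) := inferInstance
  obtain ⟨y0⟩ : Nonempty (V × Z) := inferInstance
  have hfin := D.range_fin
  have huniq : ∀ a b : (V × Z) ≃ₜ (V × Z), (∀ y, P (a y) = P (b y)) → ∀ y, a y = b y → a = b := by
    intro a b hab y hy
    have h1 : (a : V × Z → V × Z) = b := hP.eq_of_comp_eq a.continuous b.continuous
      (funext hab) y hy
    exact Homeomorph.ext (congrFun h1)
  have hΛ : ∀ h : (V × Z) ≃ₜ (V × Z), h ∈ D.Λ ↔ ∀ y, P (h y) = P y := by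
    intro h
    constructor
    · intro hh y
      exact ((hfib y (h y)).2 ⟨h, hh, rfl⟩).symm
    · intro hh
      obtain ⟨a, ha, hay⟩ := (hfib y0 (h y0)).1 (hh y0).symm
      have h2 : h = a := huniq h a (fun z => by
        rw [hh z]
        exact (hfib _ _).2 ⟨a, ha, rfl⟩) y0 hay
      rwa [h2]
  obtain ⟨F, hF⟩ := exists_lift P hP hs f
  have hFs : ∀ y, P (F⁻¹ y) = f.symm (P y) := by
    intro y
    have h1 := hF (F⁻¹ y)
    have h2 : F (F⁻¹ y) = y := F.apply_symm_apply y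
    rw [h2] at h1
    rw [h1, f.symm_apply_apply]
  have hFΛ : ∀ a, a ∈ D.Λ ↔ F * a * F⁻¹ ∈ D.Λ := by
    intro a
    rw [hΛ, hΛ]
    constructor
    · intro h y
      show P (F (a (F⁻¹ y))) = P y
      rw [hF, h, hFs, f.apply_symm_apply]
    · intro h y
      have h1 := h (F y)
      have h2 : (F * a * F⁻¹) (F y) = F (a y) := by
        show F (a (F.symm (F y))) = _
        rw [F.symm_apply_apply]
      rw [h2, hF, hF] at h1
      exact f.injective h1
  have hFn : ∀ (k : ℕ) (y : V × Z), P ((F ^ k) y) = f^[k] (P y) := by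
    intro k
    induction k with
    | zero => intro y; rfl
    | succ k ih =>
      intro y
      rw [pow_succ', Function.iterate_succ_apply']
      show P (F ((F ^ k) y)) = _
      rw [hF, ih]
  have hδ : F ^ n * D.gt⁻¹ ∈ D.Λ := by
    rw [hΛ]
    intro y
    show P ((F ^ n) (D.gt⁻¹ y)) = P y
    rw [hFn, hf, ← hg]
    congr 1
    exact D.gt.apply_symm_apply y
  obtain ⟨N, hNΛ, hNR, hNn, hNF, hNgt, hfi, k, hk, δ', hδ', hFk⟩ := D.exists_N' hfin F hFΛ n hn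
    (F ^ n * D.gt⁻¹) hδ (by rw [inv_mul_cancel_right])
  have hgt' : ∀ a, a ∈ N ↔ (D.pow k hk).gt * a * (D.pow k hk).gt⁻¹ ∈ N := by
    intro a
    rw [RDat.pow_gt]
    exact conj_pow N D.gt hNgt k a
  obtain ⟨Γ, T, hTgt, hTN, hNT⟩ := exists_tdat_sub (D.pow k hk) N hNΛ hNR hgt' hfi
  rw [RDat.pow_gt] at hTgt
  obtain ⟨C, h, h1, h2, h3⟩ := exists_conj T
  -- the automorphism induced by `F`
  have hψ1 : ∀ a : Γ, ∃ b : Γ, ∀ y, F (T.act a y) = T.act b (F y) := by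
    intro a
    obtain ⟨c, hc, hca⟩ := hTN a
    obtain ⟨b, hb⟩ := hNT _ ((hNF c).1 hc)
    refine ⟨b, fun y => ?_⟩
    rw [← hb, ← hca]
    show F (c y) = F (c (F.symm (F y)))
    rw [F.symm_apply_apply]
  choose ψ hψ using hψ1
  have hψadd : ∀ a b, ψ (a + b) = ψ a + ψ b := by
    intro a b
    refine tdat_act_inj T (y := F y0) ?_
    rw [← hψ, T.act_add, hψ, hψ, T.act_add]
  have hψbij : Function.Bijective (AddMonoidHom.mk' ψ hψadd) := by
    refine ⟨?_, ?_⟩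
    · intro a b hab
      have hab' : ψ a = ψ b := hab
      refine tdat_act_inj T (y := y0) (F.injective ?_)
      rw [hψ, hψ, hab']
    · intro b
      obtain ⟨c, hc, hcb⟩ := hTN b
      have hc' : F⁻¹ * c * F ∈ N := by
        rw [hNF]
        have : F * (F⁻¹ * c * F) * F⁻¹ = c := by group
        rwa [this]
      obtain ⟨a, ha⟩ := hNT _ hc'
      refine ⟨a, ?_⟩
      show ψ a = b
      refine tdat_act_inj T (y := F y0) ?_
      rw [← hψ, ← ha, ← hcb]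
      show F (F.symm (c (F y0))) = _
      rw [F.apply_symm_apply]
  obtain ⟨δ'', hδ''⟩ := hNT δ' hδ'
  have hit : ∀ (j : ℕ) (y : V × Z), F^[j] y = (F ^ j) y := by
    intro j
    induction j with
    | zero => intro y; rfl
    | succ j ih =>
      intro y
      rw [Function.iterate_succ_apply', ih, pow_succ']
      rfl
  obtain ⟨A, h', hdet, hA, h4, h5⟩ := conjF C h h1 h2 h3 F
    (AddEquiv.ofBijective (AddMonoidHom.mk' ψ hψadd) hψbij) (fun a y => hψ a y) (n * k)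
    (Nat.mul_pos hn hk) δ'' (fun y => by
      rw [hit, hFk, ← hδ'', hTgt]
      rfl)
  have hz : ∀ z : Fin C.m → ℤ, ∃ a ∈ N, ∀ y, h' (a y) = h' y + fun i => (z i : ℝ) := by
    intro z
    obtain ⟨c, hc, hca⟩ := hTN (C.b.symm z)
    refine ⟨c, hc, fun y => ?_⟩
    rw [hca, h4]
    congr 1
    funext i
    show ((C.b (C.b.symm z) i : ℤ) : ℝ) = (z i : ℝ)
    rw [AddEquiv.apply_symm_apply]
  refine ⟨C.m, h', A, N, F, hdet, hA, hNΛ, hNn, hfi, ?_, hz, hFΛ, hF, ?_, h5⟩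
  · intro a
    constructor
    · intro ha
      obtain ⟨t, ht⟩ := hNT a ha
      exact ⟨C.b t, fun y => by rw [ht, h4]; rfl⟩
    · rintro ⟨z, hza⟩
      obtain ⟨c, hc, hcz⟩ := hz z
      have : a = c := by
        apply Homeomorph.ext
        intro y
        apply h'.injective
        rw [hza, hcz]
      rwa [this]
  · intro a ha y hy
    exact huniq a 1 (fun w => (hΛ a).1 ha w) y hy

/-- Conjugacy to a hyperbolic automorphism of a flat manifold. -/
theorem flat_of_rdat {X : Type*} [TopologicalSpace X] [T2Space X] [FiniteDimensional ℝ V]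
    [LocallyCompactSpace Z] [ConnectedSpace Z] [SimplyConnectedSpace (V × Z)]
    [LocallyPathConnectedSpace (V × Z)] (D : RDat V Z) (P : V × Z → X)
    (hP : IsCoveringMap P) (hs : Function.Surjective P)
    (hfib : ∀ y y', P y = P y' ↔ ∃ a ∈ D.Λ, y' = a y) (f g : X ≃ₜ X)
    (hg : ∀ y, P (D.gt y) = g (P y)) (n : ℕ) (hn : 1 ≤ n) (hf : ∀ x, f^[n] x = g x) :
    IsFlatAuto f := by
  obtain ⟨m, h, A, N, F, hdet, hA, hNΛ, hNn, ⟨s, hsf, hsΛ, hs1⟩, hN, hz, hFΛ, hF, hfree, hconj⟩ :=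
    core_of_rdat D P hP hs hfib f g hg n hn hf
  have hF' : ∀ v, (cj h.symm F) v = (A.map (Int.cast : ℤ → ℝ)).mulVec v := by
    intro v
    show h (F (h.symm v)) = _
    rw [hconj, h.apply_symm_apply]
  have hFΛ' : ∀ a, a ∈ D.Λ.comap (cj h) ↔
      (cj h.symm F) * a * (cj h.symm F)⁻¹ ∈ D.Λ.comap (cj h) := by
    intro a
    rw [Subgroup.mem_comap, Subgroup.mem_comap, map_mul, map_mul, map_inv, cj_cj]
    exact hFΛ _
  have haff := affine_of_norm (D.Λ.comap (cj h)) (N.comap (cj h)) (Subgroup.comap_mono hNΛ)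
    (by
      intro b hb a
      rw [Subgroup.mem_comap, Subgroup.mem_comap, map_mul, map_mul, map_inv]
      exact hNn _ hb _)
    (by
      refine ⟨cj h.symm '' s, hsf.image _, ?_, ?_⟩
      · rintro _ ⟨c, hc, rfl⟩
        show cj h (cj h.symm c) ∈ D.Λ
        rw [cj_cj]
        exact hsΛ hc
      · intro a ha
        obtain ⟨c, hc, hca⟩ := hs1 (cj h a) ha
        refine ⟨cj h.symm c, ⟨c, hc, rfl⟩, ?_⟩
        show cj h (cj h.symm c * a) ∈ N
        rw [map_mul, cj_cj]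
        exact hca)
    (by
      intro a
      rw [Subgroup.mem_comap, hN]
      constructor
      · rintro ⟨z, hz⟩
        refine ⟨z, fun v => ?_⟩
        have := hz (h.symm v)
        rw [cj_apply, h.apply_symm_apply, h.apply_symm_apply] at this
        exact this
      · rintro ⟨z, hz⟩
        refine ⟨z, fun y => ?_⟩
        rw [cj_apply, h.apply_symm_apply]
        exact hz _)
    A hdet hA (cj h.symm F) hF' hFΛ'
  refine ⟨m, D.Λ.comap (cj h), A, P ∘ h.symm, haff, ?_, ?_, ?_, hdet, hA, ?_, ?_,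
    hP.comp_homeomorph h.symm, hs.comp h.symm.surjective, ?_, ?_⟩
  · intro z
    obtain ⟨a, ha, haz⟩ := hz z
    refine ⟨cj h.symm a, ?_, fun v => ?_⟩
    · show cj h (cj h.symm a) ∈ D.Λ
      rw [cj_cj]
      exact hNΛ ha
    · show h (a (h.symm v)) = _
      rw [haz, h.apply_symm_apply]
  · refine ⟨(fun c => cj h.symm c⁻¹) '' s, hsf.image _, ?_, ?_⟩
    · rintro _ ⟨c, hc, rfl⟩
      show cj h (cj h.symm c⁻¹) ∈ D.Λ
      rw [cj_cj]
      exact D.Λ.inv_mem (hsΛ hc)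
    · intro a ha
      obtain ⟨c, hc, hca⟩ := hs1 (cj h a) ha
      have h1 : c⁻¹ * (c * cj h a) * c⁻¹⁻¹ ∈ N :=
        (hNn c⁻¹ (D.Λ.inv_mem (hsΛ hc)) (c * cj h a)).1 hca
      obtain ⟨z, hz1⟩ := (hN _).1 h1
      refine ⟨cj h.symm c⁻¹, ⟨c, hc, rfl⟩, z, fun v => ?_⟩
      have h2 : cj h a = (c⁻¹ * (c * cj h a) * c⁻¹⁻¹) * c⁻¹ := by group
      have h3 : a v = h ((cj h a) (h.symm v)) := by
        rw [cj_apply, h.apply_symm_apply, h.apply_symm_apply]
      rw [h3, h2]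
      show h ((c⁻¹ * (c * cj h a) * c⁻¹⁻¹) (c⁻¹ (h.symm v))) = h (c⁻¹ (h.symm v)) + _
      exact hz1 _
  · intro a ha v hv
    have h1 : cj h a = 1 := hfree _ ha (h.symm v) (by
      rw [cj_apply, h.apply_symm_apply, hv])
    rw [← cj_cj' h a, h1, map_one]
  · intro a ha
    refine ⟨_, (hFΛ' a).1 ha, fun v => ?_⟩
    rw [← hF', ← hF']
    show (cj h.symm F) (a v) = (cj h.symm F) (a ((cj h.symm F).symm ((cj h.symm F) v)))
    rw [Homeomorph.symm_apply_apply]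
  · intro a' ha'
    refine ⟨(cj h.symm F)⁻¹ * a' * (cj h.symm F), ?_, fun v => ?_⟩
    · rw [hFΛ']
      have : (cj h.symm F) * ((cj h.symm F)⁻¹ * a' * (cj h.symm F)) * (cj h.symm F)⁻¹ = a' := by
        group
      rwa [this]
    · rw [← hF', ← hF']
      show (cj h.symm F) ((cj h.symm F).symm (a' ((cj h.symm F) v))) = _
      rw [Homeomorph.apply_symm_apply]
  · intro v w
    show P (h.symm v) = P (h.symm w) ↔ _
    rw [hfib]
    constructor
    · rintro ⟨a, ha, hay⟩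
      refine ⟨cj h.symm a, ?_, ?_⟩
      · show cj h (cj h.symm a) ∈ D.Λ
        rw [cj_cj]
        exact ha
      · show w = h (a (h.symm v))
        rw [← hay, h.apply_symm_apply]
    · rintro ⟨a, ha, rfl⟩
      refine ⟨cj h a, ha, ?_⟩
      rw [cj_apply, h.apply_symm_apply]
  · intro v
    show P (h.symm _) = f (P (h.symm v))
    rw [← hF]
    congr 1
    rw [Homeomorph.symm_apply_eq, hconj, h.apply_symm_apply]

end Pool.Agent.H779R2.Fi
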