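import Pool.Agent.H779R2.Fj.RP
import Pool.Agent.H779R2.Fj.RQ

set_option autoImplicit false

namespace Pool.Agent.H779R2.Fi

open Pool.Agent.H721R2 Pool.Agent.H789R2.AN Pool.Agent.H789R2.GP Pool.Agent.H779R2.An
open Pool.Agent.H779R2.To Pool.Agent.H779R2.Nu
open Filter Topology

/-- The inverse of an automorphism of a flat manifold. -/
theorem IsFlatAuto.inv {X : Type*} [TopologicalSpace X] (f : X ≃ₜ X) (h : IsFlatAuto f.symm) :
    IsFlatAuto f := by
  obtain ⟨m, Γ, A, q, h1, h2, h3, h4, hA, hy, h5, h6, hcov, hs, hfib, hq⟩ := h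
  have hc : ∀ (B C : Matrix (Fin m) (Fin m) ℤ), B * C = 1 → ∀ v : Fin m → ℝ,
      (B.map (Int.cast : ℤ → ℝ)).mulVec ((C.map (Int.cast : ℤ → ℝ)).mulVec v) = v := by
    intro B C hBC v
    rw [Matrix.mulVec_mulVec]
    have e1 : B.map (Int.cast : ℤ → ℝ) * C.map (Int.cast : ℤ → ℝ) = 1 := by
      have := congrArg (fun D : Matrix (Fin m) (Fin m) ℤ => D.map (Int.castRingHom ℝ)) hBC
      simp only [Matrix.map_mul, Matrix.map_one _ (map_zero _) (map_one _)] at this
      exact this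
    rw [e1, Matrix.one_mulVec]
  have c1 := hc A A⁻¹ (Matrix.mul_nonsing_inv A hA)
  have c2 := hc A⁻¹ A (Matrix.nonsing_inv_mul A hA)
  refine ⟨m, Γ, A⁻¹, q, h1, h2, h3, h4, Matrix.isUnit_nonsing_inv_det A hA,
    HypMat.inv_aux A hA hy, ?_, ?_, hcov, hs, hfib, ?_⟩
  · intro a ha
    obtain ⟨a', ha', h7⟩ := h6 a ha
    refine ⟨a', ha', fun v => ?_⟩
    have h8 := h7 ((A⁻¹.map (Int.cast : ℤ → ℝ)).mulVec v)
    rw [c1] at h8
    rw [← h8, c2]
  · intro a' ha'
    obtain ⟨a, ha, h7⟩ := h5 a' ha'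
    refine ⟨a, ha, fun v => ?_⟩
    have h8 := h7 ((A⁻¹.map (Int.cast : ℤ → ℝ)).mulVec v)
    rw [c1] at h8
    rw [← h8, c2]
  · intro v
    have h7 := hq ((A⁻¹.map (Int.cast : ℤ → ℝ)).mulVec v)
    rw [c1] at h7
    rw [h7, f.apply_symm_apply]

variable {X E : Type*} [MetricSpace X] [CompactSpace X] [NormedAddCommGroup E]
  [InnerProductSpace ℝ E] [FiniteDimensional ℝ E]

/-- Conjugacy to a hyperbolic automorphism of a flat manifold. -/
theorem exists_flatA {E' : Type*} [NormedAddCommGroup E'] [NormedSpace ℝ E'] [ProperSpace E']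
    [ChartedSpace E' X] [PreconnectedSpace X] {S : HypSys X E} {F : Flat S} (B : CS0 S)
    {c c' : ℝ} {T : QS S.g c} (h : LP S.g c')
    (hc : 0 < c) (hT : ∀ a s u x, T.Q a s u x ↔ QdF F a s u x) (p : X) (N : ℕ) (hN : 1 ≤ N)
    (hp : S.g^[N] p = p) (f : X ≃ₜ X) (n : ℕ) (hn : 1 ≤ n) (hf : ∀ x, f^[n] x = S.g x) :
    IsFlatAuto f := by
  obtain ⟨D, P, h1, h2, h3, h4, hcov, hsurj, hfib, hgt⟩ :=
    exists_rdat (E' := E') B h hc hT p N hN hp
  have hit : ∀ y, S.g^[N] y = (f^[n * N]) y := by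
    intro y
    have : (S.g : X → X) = f^[n] := funext fun z => (hf z).symm
    rw [this, ← Function.iterate_mul]
  let gN : X ≃ₜ X :=
    { toFun := S.g^[N]
      invFun := S.g.symm^[N]
      left_inv := iter_symm_iter S N
      right_inv := iter_iter_symm S N
      continuous_toFun := S.g.continuous.iterate N
      continuous_invFun := S.g.symm.continuous.iterate N }
  exact flat_of_rdat D P hcov hsurj hfib f gN (fun y => hgt y) (n * N)
    (Nat.mul_pos hn hN) (fun y => (hit y).symm)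

end Pool.Agent.H779R2.Fi
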