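import Pool.Agent.H779R2.Nu.MainN
import Pool.Agent.H779R2.Fj.RR

set_option autoImplicit false
set_option linter.unusedSectionVars false

open scoped Manifold ContDiff Topology Bundle
open Set Filter Bundle

namespace Pool.Agent.H779R2.Fi

open Pool.Agent.H721R2 Pool.Agent.H789R2.AN Pool.Agent.H789R2.GP Pool.Agent.H779R2.An
  Pool.Agent.H779R2.To Pool.Agent.H779R2.Nu

section abs

variable {X E : Type*} [MetricSpace X] [CompactSpace X] [NormedAddCommGroup E]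
  [InnerProductSpace ℝ E] [FiniteDimensional ℝ E]

/-- Abstract theorem: conjugacy to a hyperbolic automorphism of a flat manifold. -/
theorem abstract_flat_d {E' : Type*} [NormedAddCommGroup E'] [NormedSpace ℝ E']
    [ProperSpace E'] [ChartedSpace E' X] [ConnectedSpace X] (S : HypSys X E) {Q r : ℝ}
    (hQ : Quad S Q r) (B₀ : CS0 S) (D d : ℕ) (hD : 2 ≤ D) (hd : 2 ≤ d)
    (hfu : ∀ x, Module.finrank ℝ (S.Vu x) = D) (hfs : ∀ x, Module.finrank ℝ (S.Vs x) = d)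
    (f : X ≃ₜ X) (n : ℕ) (hn : 1 ≤ n) (hf : ∀ x, f^[n] x = S.g x) : IsFlatAuto f := by
  obtain ⟨F, hlin, hcomm, hglob⟩ := exists_lin_d S hQ B₀ D d hD hd hfu hfs
  obtain ⟨c', hc', T', hT'⟩ := exists_qs F hlin hcomm hglob
  obtain ⟨c₀, hLP⟩ := exists_LP S
  obtain ⟨q, hq, p, hp⟩ := S.exists_periodic
  exact exists_flatA (E' := E') B₀ hLP hc' hT' p q hq hp f n hn hf

end abs

/-- Conjugacy to a hyperbolic automorphism of a flat manifold, for Anosov diffeomorphisms with a conformal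
bundle. -/
theorem main_flat (E : Type*) [NormedAddCommGroup E] [NormedSpace ℝ E] [FiniteDimensional ℝ E]
    (M : Type*) [TopologicalSpace M] [T2Space M] [CompactSpace M] [ConnectedSpace M]
    [ChartedSpace E M] [IsManifold 𝓘(ℝ, E) ∞ M] (f : Diffeomorph 𝓘(ℝ, E) 𝓘(ℝ, E) M M 1)
    (hf2 : ContMDiff 𝓘(ℝ, E) 𝓘(ℝ, E) 2 f) (hf2' : ContMDiff 𝓘(ℝ, E) 𝓘(ℝ, E) 2 f.symm)
    (Es Eu : ∀ x : M, Submodule ℝ (TangentSpace 𝓘(ℝ, E) x)) (hA : IsAnosov f Es Eu)
    (ds du : ℕ) (hds : ∀ x, Module.finrank ℝ (Es x) = ds)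
    (hdu : ∀ x, Module.finrank ℝ (Eu x) = du) (h2s : 2 ≤ ds) (h2u : 2 ≤ du)
    (hJ : (∃ G, InvConfOn f Eu G) ∨ ∃ G, InvConfOn f Es G) : IsFlatAuto f := by
  obtain ⟨m, e, he, hemb, hinj⟩ := exists_embedding_euclidean_of_compact (I := 𝓘(ℝ, E)) (M := M)
  let _ : MetricSpace M := hemb.isEmbedding.comapMetricSpace e
  have hiso : ∀ x y : M, dist x y = ‖e x - e y‖ := fun x y => dist_eq_norm (e x) (e y)
  have he1 : ContMDiff 𝓘(ℝ, E) (𝓡 m) 1 e := he.of_le (by simp)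
  have he2 : ContMDiff 𝓘(ℝ, E) (𝓡 m) 2 e := he.of_le (by
    exact_mod_cast (ENat.LEInfty.out : (2 : WithTop ℕ∞) ≤ ∞))
  obtain ⟨C', a, b, Ls, Lu, hE⟩ := eanosov_of_isAnosov e he1 hinj f Es Eu hA
  obtain ⟨K, hK, hang⟩ := hE.angle he1 hinj
  have t1 : Tendsto (fun n : ℕ => K * (C' * a ^ n)) atTop (𝓝 0) := by
    have := ((tendsto_pow_atTop_nhds_zero_of_lt_one hE.a_pos.le hE.a_lt).const_mul C').const_mul K
    simpa using this
  have t2 : Tendsto (fun n : ℕ => K * (C' * b ^ n)) atTop (𝓝 0) := by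
    have := ((tendsto_pow_atTop_nhds_zero_of_lt_one hE.b_pos.le hE.b_lt).const_mul C').const_mul K
    simpa using this
  obtain ⟨n, ⟨hn1, hn2⟩, hn3⟩ := ((((tendsto_order.mp t1).2 (1 / 16) (by norm_num)).and
    ((tendsto_order.mp t2).2 (1 / 16) (by norm_num))).and (eventually_ge_atTop 1)).exists
  obtain ⟨S, hS⟩ := exists_realizes hiso he1 hinj hE K hK hang n hn1.le hn2.le
  obtain ⟨Q, r, hQ⟩ := quad_of_realizes hiso he2 hinj hE hf2 hf2' hS
  have hfin : ∀ (x : M) (V : Submodule ℝ E),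
      Module.finrank ℝ (V.map (dm E e x).toLinearMap) = Module.finrank ℝ V := fun x V =>
    (LinearEquiv.finrank_eq (Submodule.equivMapOfInjective (dm E e x).toLinearMap (hinj x) V)).symm
  have hfs : ∀ x, Module.finrank ℝ (S.Vs x) = ds := fun x => by
    rw [hS.Vs_eq, hfin]; exact hds x
  have hfu : ∀ x, Module.finrank ℝ (S.Vu x) = du := fun x => by
    rw [hS.Vu_eq, hfin]; exact hdu x
  have hgn : ∀ x, f^[n] x = S.g x := fun x => by rw [hS.g_eq]; rfl
  rcases hJ with ⟨G, hG⟩ | ⟨G, hG⟩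
  · obtain ⟨B₀⟩ := cs0_of_realizes hiso he1 hinj hE G hG hS
    exact abstract_flat_d (E' := E) S hQ B₀ du ds h2u h2s hfu hfs f.toHomeomorph n hn3 hgn
  · obtain ⟨B₀⟩ := cs0_of_realizes hiso he1 hinj hE.symm G (invConfOn_symm hE hG) hS.symm
    refine IsFlatAuto.inv f.toHomeomorph ?_
    refine abstract_flat_d (E' := E) S.symm hQ.symm B₀ ds du h2s h2u hfs hfu
      f.toHomeomorph.symm n hn3 ?_
    intro x
    apply (Function.Injective.iterate f.toHomeomorph.injective n)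
    have h1 : (f.toHomeomorph)^[n] ((f.toHomeomorph.symm)^[n] x) = x :=
      (Function.LeftInverse.iterate f.toHomeomorph.apply_symm_apply n) x
    have h3 : (f.toHomeomorph)^[n] (S.symm.g x) = S.g (S.g.symm x) := hgn _
    rw [h1, h3, Homeomorph.apply_symm_apply]

end Pool.Agent.H779R2.Fi
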